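import Mathlib

/-!
# Codes for the coordinates of a finite support iteration over a first forcing notion

The first forcing notion is `Q`. A coordinate of the iteration carries its stage `α` and a name for
a family of finite subsets of `X` (the finite centred subsets of a preorder). The name assigns to
each finite `F ⊆ X` a family (indexed by a part of `I`) of conditions; conditions consist of an
element of `Q` and a finite set of pairs (coordinate, element of `X`).
-/

set_option autoImplicit false

namespace Pool.Agent.D0H62.MK

open Cardinal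

/-- codes of coordinates -/
inductive Code (Q X W I : Type) : Type
  | mk (st : W) (on : Finset X → I → Prop) (qv : Finset X → I → Q) (len : Finset X → I → ℕ)
      (sub : (F : Finset X) → (n : I) → Fin (len F n) → Code Q X W I)
      (val : (F : Finset X) → (n : I) → Fin (len F n) → X) : Code Q X W I

variable {Q X W I : Type}

/-- finite parts of conditions (before validity is imposed) -/
abbrev Cond (Q X W I : Type) : Type := Finset (Code Q X W I × X)

namespace Code

/-- the stage -/
def st : Code Q X W I → W
  | mk st _ _ _ _ _ => st

open Classical in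
/-- the name -/
noncomputable def nm : Code Q X W I → Finset X → Set (Q × Cond Q X W I)
  | mk _ on qv len sub val, F => {s | ∃ n, on F n ∧
      s = (qv F n, Finset.univ.image fun i : Fin (len F n) => (sub F n i, val F n i))}

theorem exists_code [Nonempty Q] (α : W) (N : Finset X → Set (Q × Cond Q X W I))
    (hN : ∀ F, #(N F) ≤ #I) : ∃ c : Code Q X W I, c.st = α ∧ c.nm = N := by
  classical
  have h1 : ∀ F, ∃ g : I → Option (Q × Cond Q X W I), ∀ s, s ∈ N F ↔ ∃ n, g n = some s := by
    intro F
    obtain ⟨e⟩ := hN F
    refine ⟨fun n => if h : ∃ s : N F, e s = n then some h.choose.1 else none, fun s => ?_⟩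
    constructor
    · intro hs
      refine ⟨e ⟨s, hs⟩, ?_⟩
      have h : ∃ s' : N F, e s' = e ⟨s, hs⟩ := ⟨_, rfl⟩
      simp only [dif_pos h]
      have h2 := e.injective h.choose_spec
      rw [h2]
    · rintro ⟨n, hn⟩
      by_cases h : ∃ s' : N F, e s' = n
      · simp only [dif_pos h] at hn
        have h2 := Option.some.inj hn
        rw [← h2]
        exact h.choose.2
      · simp only [dif_neg h] at hn
        exact absurd hn (by simp)
  choose g hg using h1
  let e : (F : Finset X) → (n : I) → Q × Cond Q X W I :=
    fun F n => (g F n).getD (Classical.arbitrary Q, ∅)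
  refine ⟨mk α (fun F n => g F n ≠ none) (fun F n => (e F n).1) (fun F n => (e F n).2.card)
    (fun F n i => ((e F n).2.equivFin.symm i).1.1) (fun F n i => ((e F n).2.equivFin.symm i).1.2),
    rfl, ?_⟩
  funext F
  ext s
  rw [hg]
  have himg : ∀ n, (Finset.univ.image fun i : Fin (e F n).2.card =>
      (((e F n).2.equivFin.symm i).1.1, ((e F n).2.equivFin.symm i).1.2)) = (e F n).2 := by
    intro n
    ext a
    simp only [Finset.mem_image, Finset.mem_univ, true_and]
    constructor
    · rintro ⟨i, rfl⟩
      exact ((e F n).2.equivFin.symm i).2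
    · intro ha
      exact ⟨(e F n).2.equivFin ⟨a, ha⟩, by simp⟩
  show (∃ n, g F n ≠ none ∧ s = ((e F n).1, Finset.univ.image fun i : Fin (e F n).2.card =>
      (((e F n).2.equivFin.symm i).1.1, ((e F n).2.equivFin.symm i).1.2))) ↔ _
  constructor
  · rintro ⟨n, h1, h2⟩
    rw [himg] at h2
    obtain ⟨t, ht⟩ := Option.ne_none_iff_exists'.1 h1
    refine ⟨n, ?_⟩
    rw [h2]
    simp [e, ht]
  · rintro ⟨n, hn⟩
    refine ⟨n, by rw [hn]; simp, ?_⟩
    rw [himg]
    simp [e, hn]

end Code

end Pool.Agent.D0H62.MK
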