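import Pool.Agent.D0H62.MK.Mix

/-!
# Martin's axiom over a `σ`-closed extension: the iteration
-/

set_option autoImplicit false

namespace Pool.Agent.D0H62.MK

open Classical Cardinal Pool.Agent.Helper669.Forcing Pool.Agent.W684.FM

variable {Q X W I : Type} [Preorder Q] [LinearOrder W] [WellFoundedLT W]

variable (Q X W I) in
/-- the poset of the iteration -/
def PQ : Type := {u : Q × Cond Q X W I // Valid Sall u.1 u.2}

instance : Preorder (PQ Q X W I) where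
  le u v := u.1.1 ≤ v.1.1 ∧ v.1.2 ⊆ u.1.2
  le_refl u := ⟨le_rfl, Finset.Subset.refl _⟩
  le_trans u v w h1 h2 := ⟨h1.1.trans h2.1, Finset.Subset.trans h2.2 h1.2⟩

theorem PQ.le_def {u v : PQ Q X W I} : u ≤ v ↔ u.1.1 ≤ v.1.1 ∧ v.1.2 ⊆ u.1.2 := Iff.rfl

/-- the condition with the given components -/
def mkPQ (q : Q) (p : Cond Q X W I) (h : Valid Sall q p) : PQ Q X W I := ⟨(q, p), h⟩

/-- strengthening the first component -/
def up (u : PQ Q X W I) (q : Q) (hq : q ≤ u.1.1) : PQ Q X W I := ⟨(q, u.1.2), u.2.le hq⟩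

theorem up_le (u : PQ Q X W I) (q : Q) (hq : q ≤ u.1.1) : up u q hq ≤ u :=
  ⟨hq, Finset.Subset.refl _⟩

theorem rp_PQ (hQ : SC Q) (φ : Set (PQ Q X W I)) (hφ : Down φ) (q₀ : Q) :
    ∃ q ≤ q₀, ∃ C : Set (PQ Q X W I), C.Countable ∧ (∀ s ∈ C, s ∈ φ ∧ s.1.1 = q) ∧
      ∀ u ∈ φ, u.1.1 ≤ q → ∃ s ∈ C, ∃ v, v ≤ u ∧ v ≤ s := by
  obtain ⟨q, hq, C, hC1, hC2, hC3⟩ := RP_Sall (X := X) (W := W) (I := I) hQ
    (fun q => {p | ∃ h : Valid Sall q p, (⟨(q, p), h⟩ : PQ Q X W I) ∈ φ})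
    (by
      rintro q r hr p ⟨h1, h2⟩
      exact ⟨h1.le hr, hφ _ h2 _ ⟨hr, Finset.Subset.refl _⟩⟩)
    (fun q p hp => hp.1) q₀
  refine ⟨q, hq, {s | s ∈ φ ∧ s.1.1 = q ∧ s.1.2 ∈ C}, ?_, fun s hs => ⟨hs.1, hs.2.1⟩, ?_⟩
  · refine Set.countable_of_injective_of_countable_image (f := fun s : PQ Q X W I => s.1.2) ?_
      (hC1.mono ?_)
    · rintro s hs t ht hst
      apply Subtype.ext
      exact Prod.ext (hs.2.1.trans ht.2.1.symm) hst
    · rintro _ ⟨s, hs, rfl⟩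
      exact hs.2.2
  · intro u hu huq
    obtain ⟨s, hs, r, hr, t, ht, h1, h2⟩ := hC3 u.1.1 huq u.1.2 ⟨u.2, hu⟩
    obtain ⟨h3, h4⟩ := hC2 hs
    exact ⟨⟨(q, s), h3⟩, ⟨h4, rfl, hs⟩, ⟨(r, t), ht⟩, ⟨hr, h1⟩, ⟨hr.trans huq, h2⟩⟩

theorem exists_predense_small (hQ : SC Q) (φ : Set (PQ Q X W I)) (hφ : Down φ) :
    ∃ A : Set (PQ Q X W I), #A ≤ #(Q × ℕ) ∧ A ⊆ φ ∧ ∀ p ∈ φ, ∃ a ∈ A, ∃ r, r ≤ p ∧ r ≤ a := by
  choose q hq C hC1 hC2 hC3 using rp_PQ hQ φ hφ
  refine ⟨⋃ q₀, C q₀, ?_, ?_, ?_⟩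
  · refine (Cardinal.mk_iUnion_le _).trans ?_
    rw [Cardinal.mk_prod, Cardinal.lift_id, Cardinal.lift_id]
    refine mul_le_mul' le_rfl (ciSup_le' fun i => ?_)
    rw [Cardinal.mk_nat, Cardinal.le_aleph0_iff_set_countable]
    exact hC1 i
  · refine Set.iUnion_subset fun q₀ s hs => ?_
    exact (hC2 q₀ s hs).1
  · intro p hp
    obtain ⟨s, hs, v, hv1, hv2⟩ := hC3 p.1.1 (up p _ (hq p.1.1)) (hφ _ hp _ (up_le _ _ _)) le_rfl
    exact ⟨s, Set.mem_iUnion.2 ⟨_, hs⟩, v, hv1.trans (up_le _ _ _), hv2⟩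

theorem exists_small_name (hQ : SC Q) (N : Set (PQ Q X W I)) :
    ∃ A : Set (PQ Q X W I), #A ≤ #(Q × ℕ) ∧ meets A = meets N := by
  obtain ⟨A, h1, h2, h3⟩ := exists_predense_small hQ (meets N) (down_meets N)
  refine ⟨A, h1, ?_⟩
  ext p
  constructor
  · intro hp
    apply meets_of_dense
    intro q hq
    obtain ⟨r, hr, a, ha, hra⟩ := hp q hq
    exact ⟨r, hr, down_meets N a (h2 ha) r hra⟩
  · intro hp q hq
    obtain ⟨a, ha, r, hr, hr'⟩ := h3 q (down_meets N p hp q hq)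
    exact ⟨r, hr, a, ha, hr'⟩

/-- restriction to the coordinates before stage `α` -/
noncomputable def rlt (α : W) (u : PQ Q X W I) : PQ Q X W I :=
  ⟨(u.1.1, restr (Slt α) u.1.2),
    (valid_restr (fun _ => proper_Sall) (initial_Slt α) u.2).mono (Slt_sub_Sall α)⟩

/-- all conditions in `N` only have coordinates of stages before `α` -/
def Below (α : W) (N : Set (PQ Q X W I)) : Prop := ∀ s ∈ N, ∀ a ∈ s.1.2, a.1.st < α

theorem Below.memSlt {α : W} {N : Set (PQ Q X W I)} (h : Below α N) {s : PQ Q X W I} (hs : s ∈ N)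
    {a : Code Q X W I × X} (ha : a ∈ s.1.2) : a.1 ∈ Slt α :=
  mem_Slt.2 ⟨h s hs a ha, mem_Sall.1 (s.2 a ha).1⟩

/-- names referring to the stages before `α` only are decided by the restrictions -/
theorem meets_rlt {α : W} {N : Set (PQ Q X W I)} (hN : Below α N) {p : PQ Q X W I}
    (hp : p ∈ meets N) : rlt α p ∈ meets N := by
  rintro q ⟨hq1, hq2⟩
  have hq1' : q.1.1 ≤ p.1.1 := hq1
  have hq2' : restr (Slt α) p.1.2 ⊆ q.1.2 := hq2
  have hv : Valid Sall q.1.1 (restr (Slt α) q.1.2 ∪ p.1.2) :=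
    amalg_one (Slt_sub_Sall α) (p.2.le hq1')
      (valid_restr (fun _ => proper_Sall) (initial_Slt α) q.2)
      (subset_restr hq2' fun a ha => (mem_restr.1 ha).2)
  obtain ⟨r, hr, s, hs, hrs⟩ := hp ⟨(q.1.1, _), hv⟩ ⟨hq1', Finset.subset_union_right⟩
  have hr1 : r.1.1 ≤ q.1.1 := hr.1
  have hr' : restr (Slt α) q.1.2 ∪ p.1.2 ⊆ r.1.2 := hr.2
  have hrs' : s.1.2 ⊆ r.1.2 := hrs.2
  have hv2 : Valid Sall r.1.1 (restr (Slt α) r.1.2 ∪ q.1.2) := by
    refine amalg_one (Slt_sub_Sall α) (q.2.le hr1)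
      (valid_restr (fun _ => proper_Sall) (initial_Slt α) r.2) ?_
    refine subset_restr (Finset.Subset.trans Finset.subset_union_left hr') ?_
    exact fun a ha => (mem_restr.1 ha).2
  refine ⟨⟨(r.1.1, _), hv2⟩, ⟨hr1, Finset.subset_union_right⟩, s, hs, hrs.1, ?_⟩
  exact Finset.Subset.trans (subset_restr hrs' fun a ha => hN.memSlt hs ha)
    Finset.subset_union_left

theorem exists_below [Infinite I] (hW : Bdd I W) {ι : Type} (hι : #ι ≤ #I)
    (N : ι → Set (PQ Q X W I)) (hN : ∀ i, #(N i) ≤ #I) : ∃ α, ∀ β, α ≤ β → ∀ i, Below β (N i) := by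
  have h1 : #(⋃ i, ⋃ s ∈ N i, (fun a : Code Q X W I × X => a.1.st) ''
      (s.1.2 : Set (Code Q X W I × X))) ≤ #I := by
    refine (Cardinal.mk_iUnion_le _).trans ?_
    calc #ι * _ ≤ #I * #I := by
          apply mul_le_mul' hι
          apply ciSup_le'
          intro i
          refine (Cardinal.mk_biUnion_le _ _).trans ?_
          calc #(N i) * _ ≤ #I * ℵ₀ := by
                apply mul_le_mul' (hN i)
                apply ciSup_le'
                intro s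
                rw [Cardinal.le_aleph0_iff_set_countable]
                exact (s.1.1.2.countable_toSet).image _
            _ ≤ #I := (Cardinal.mul_eq_left (Cardinal.aleph0_le_mk I) (Cardinal.aleph0_le_mk I)
                Cardinal.aleph0_ne_zero).le
      _ = #I := Cardinal.mul_eq_self (Cardinal.aleph0_le_mk I)
  obtain ⟨α, hα⟩ := hW _ h1
  refine ⟨α, fun β hβ i s hs a ha => (hα _ ?_).trans_le hβ⟩
  rw [Set.mem_iUnion]
  refine ⟨i, ?_⟩
  rw [Set.mem_iUnion₂]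
  exact ⟨s, hs, a, ha, rfl⟩

section Step

/-- The data at the stage where the name `R` of a preorder is handled. -/
structure Data (α : W) (q0 : PQ Q X W I) (R : X → X → Set (PQ Q X W I))
    (A : Finset X → Set (PQ Q X W I)) (c : Code Q X W I) : Prop where
  hpre : q0 ∈ IsPreN R
  hccc : q0 ∈ CCCN R
  hR : ∀ x y, Below α (R x y)
  hA : ∀ F, Below α (A F)
  hAlb : ∀ F, ∀ a ∈ A F, a ≤ q0 ∧ ∃ z, ∀ x ∈ F, a ∈ meets (R z x)
  hAd : ∀ F, ∀ p ≤ q0, (∃ z, ∀ x ∈ F, p ∈ meets (R z x)) → ∃ a ∈ A F, ∃ r, r ≤ p ∧ r ≤ a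
  hst : c.st = α
  hnm : ∀ F s, s ∈ c.nm F ↔ ∃ a ∈ A F, s = a.1

variable {α : W} {q0 : PQ Q X W I} {R : X → X → Set (PQ Q X W I)}
    {A : Finset X → Set (PQ Q X W I)} {c : Code Q X W I}

theorem Data.proper (h : Data α q0 R A c) : Proper c := by
  intro F s hs a ha
  obtain ⟨t, ht, rfl⟩ := (h.hnm F s).1 hs
  rw [h.hst]
  exact h.hA F t ht a ha

theorem Data.notMem_Slt (h : Data α q0 R A c) : c ∉ Slt α := fun hx => by
  have := (mem_Slt.1 hx).1
  rw [h.hst] at this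
  exact lt_irrefl _ this

/-- the chain condition for one more coordinate -/
theorem Data.RP (hQ : SC Q) (h : Data α q0 R A c) : RP (Sle α ∪ {c}) := by
  by_cases hc : c ∈ (Sle α : Set (Code Q X W I))
  · have : (Sle α ∪ {c} : Set (Code Q X W I)) = Sle α := by
      rw [Set.union_eq_left, Set.singleton_subset_iff]
      exact hc
    rw [this]
    exact RP_Sle hQ α
  have hS : ∀ d ∈ (Sle α ∪ {c} : Set (Code Q X W I)), Proper d := by
    rintro d (hd | hd)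
    · exact proper_Sall (Sle_sub_Sall α hd)
    · rw [Set.mem_singleton_iff.1 hd]
      exact h.proper
  have hinit : Initial (Sle α) (Sle α ∪ {c} : Set (Code Q X W I)) := by
    refine ⟨Set.subset_union_left, ?_⟩
    rintro d hd d' (hd' | hd') hlt
    · exact hd'
    · exfalso
      rw [Set.mem_singleton_iff.1 hd', h.hst] at hlt
      exact absurd (mem_Sle.1 hd).1 (not_le.2 hlt)
  intro φ hφ hv q₀
  -- the elements without coordinate `c`
  obtain ⟨q1, hq1, C0, hC01, hC02, hC03⟩ := RP_Sle (X := X) (I := I) hQ α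
    (fun q => {p | p ∈ φ q ∧ ∀ x, (c, x) ∉ p})
    (by
      rintro q r hr p ⟨h1, h2⟩
      exact ⟨hφ _ _ hr h1, h2⟩)
    (by
      rintro q p ⟨hp, hpc⟩
      refine (hv q p hp).of_mem fun a ha => ?_
      rcases (hv q p hp a ha).1 with h1 | h1
      · exact h1
      · exact absurd ha (by
          have := hpc a.2
          rw [← Set.mem_singleton_iff.1 h1] at this
          exact this)) q₀
  -- the elements with coordinate `c`
  suffices h1 : ∃ q2 ≤ q1, ∃ C1 : Set (Cond Q X W I), C1.Countable ∧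
      C1 ⊆ {p | p ∈ φ q2 ∧ ∃ x, (c, x) ∈ p} ∧ ∀ r ≤ q2, ∀ p, p ∈ φ r → (∃ x, (c, x) ∈ p) →
        ∃ s ∈ C1, ∃ r' ≤ r, ∃ t, Valid (Sle α ∪ {c}) r' t ∧ p ⊆ t ∧ s ⊆ t by
    obtain ⟨q2, hq2, C1, hC11, hC12, hC13⟩ := h1
    refine ⟨q2, hq2.trans hq1, C0 ∪ C1, hC01.union hC11, Set.union_subset ?_ ?_, ?_⟩
    · exact fun s hs => hφ _ _ hq2 (hC02 hs).1
    · exact fun s hs => (hC12 hs).1
    · intro r hr p hp
      by_cases hpc : ∃ x, (c, x) ∈ p
      · obtain ⟨s, hs, h2⟩ := hC13 r hr p hp hpc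
        exact ⟨s, Or.inr hs, h2⟩
      · push Not at hpc
        obtain ⟨s, hs, r', hr', t, ht, h2, h3⟩ := hC03 r (hr.trans hq2) p ⟨hp, hpc⟩
        exact ⟨s, Or.inl hs, r', hr', t, ht.mono Set.subset_union_left, h2, h3⟩
  by_contra hcon
  push Not at hcon
  -- restrictions
  have hvr : ∀ q p, p ∈ φ q → Valid Sall q (restr (Sle α) p) := fun q p hp =>
    (valid_restr hS hinit (hv q p hp)).mono (Sle_sub_Sall α)
  let ψ : Q → Set (Cond Q X W I × X) := fun q => {y | y.1 ∈ φ q ∧ (∃ x, (c, x) ∈ y.1) ∧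
    ∃ hw : Valid Sall q (restr (Sle α) y.1), mkPQ q (restr (Sle α) y.1) hw ≤ q0 ∧
      ∀ x ∈ fib y.1 c, mkPQ q (restr (Sle α) y.1) hw ∈ meets (R y.2 x)}
  have hψ : ∀ q r, r ≤ q → ψ q ⊆ ψ r := by
    rintro q r hr y ⟨h1, h2, hw, h3, h4⟩
    have hle : mkPQ r (restr (Sle α) y.1) (hw.le hr) ≤ mkPQ q (restr (Sle α) y.1) hw :=
      ⟨hr, Finset.Subset.refl _⟩
    exact ⟨hφ _ _ hr h1, h2, hw.le hr, hle.trans h3, fun x hx => down_meets _ _ (h4 x hx) _ hle⟩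
  have hψex : ∀ q p, p ∈ φ q → (∃ x, (c, x) ∈ p) → ∃ z, (p, z) ∈ ψ q := by
    rintro q p hp ⟨y, hy⟩
    obtain ⟨_, s, hs, hqs, hsp⟩ := hv q p hp _ hy
    obtain ⟨a, ha, rfl⟩ := (h.hnm _ s).1 hs
    have hle : mkPQ q (restr (Sle α) p) (hvr q p hp) ≤ a :=
      ⟨hqs, subset_restr hsp fun b hb => Or.inl ((h.hA _).memSlt ha hb)⟩
    obtain ⟨h1, z, h2⟩ := h.hAlb _ a ha
    exact ⟨z, hp, ⟨y, hy⟩, hvr q p hp, hle.trans h1, fun x hx => down_meets _ _ (h2 x hx) _ hle⟩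
  let inc : Q → Cond Q X W I × X → Cond Q X W I × X → Prop := fun q y y' =>
    ∀ r' ≤ q, ∀ t, Valid (Sle α ∪ {c}) r' t → y.1 ⊆ t → ¬ y'.1 ⊆ t
  have hinc : ∀ q r y y', r ≤ q → inc q y y' → inc r y y' := fun q r y y' hr h1 r' hr' =>
    h1 r' (hr'.trans hr)
  have H : ∀ q ≤ q1, ∀ C : Set (Cond Q X W I × X), C.Countable → C ⊆ ψ q →
      ∃ r ≤ q, ∃ y ∈ ψ r, ∀ s ∈ C, inc r y s := by
    intro q hq C hC hCψ
    obtain ⟨r, hr, p, hp, hpc, h1⟩ := hcon q hq (Prod.fst '' C) (hC.image _) (by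
      rintro _ ⟨y, hy, rfl⟩
      exact ⟨(hCψ hy).1, (hCψ hy).2.1⟩)
    obtain ⟨z, hz⟩ := hψex r p hp hpc
    exact ⟨r, hr, (p, z), hz, fun s hs r' hr' t ht h2 => h1 s.1 ⟨s, hs, rfl⟩ r' hr' t ht h2⟩
  obtain ⟨Dec, hD1, hD2, hD3, hD4, hD5⟩ := exists_seq hQ hψ hinc H
  -- the names
  let Z : Om1 → Set (PQ Q X W I) := fun ξ =>
    {u | ∃ y, u.1.1 ∈ Dec ξ y ∧ restr (Sle α) y.1 ⊆ u.1.2}
  let f : Om1 → X → Set (PQ Q X W I) := fun ξ x => {u | ∃ y, u.1.1 ∈ Dec ξ y ∧ y.2 = x}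
  have hZd : ∀ ξ, Down (Z ξ) := by
    rintro ξ u ⟨y, h1, h2⟩ v hv
    exact ⟨y, hD1 _ _ _ h1 _ hv.1, h2.trans hv.2⟩
  have hfd : ∀ ξ x, Down (f ξ x) := by
    rintro ξ x u ⟨y, h1, h2⟩ v hv
    exact ⟨y, hD1 _ _ _ h1 _ hv.1, h2⟩
  have hunb : ∃ u ≤ q0, u.1.1 ≤ q1 ∧ u ∈ UnbN Z := by
    by_contra hno
    push Not at hno
    let E : Set (PQ Q X W I) :=
      {r | r ≤ q0 ∧ r.1.1 ≤ q1 ∧ ∃ a, ∀ s ≤ r, ∀ b, a < b → s ∉ meets (Z b)}
    have hE : Down E := by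
      rintro p ⟨h1, h1', a, h2⟩ q hq
      exact ⟨hq.trans h1, hq.1.trans h1', a, fun s hs b hb => h2 s (hs.trans hq) b hb⟩
    have hdense : ∀ q ≤ q0, q.1.1 ≤ q1 → ∃ r ≤ q, r ∈ E := by
      intro q hq hqq
      have h1 := hno q hq hqq
      have h2 : ∃ a, q ∉ fex fun b => fand (fground (a < b)) (meets (Z b)) := by
        by_contra h3
        push Not at h3
        exact h1 h3
      obtain ⟨a, ha⟩ := h2
      rw [mem_fex] at ha
      push Not at ha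
      obtain ⟨r, hr, h3⟩ := ha
      exact ⟨r, hr, hr.trans hq, hr.1.trans hqq, a, fun s hs b hab hsb => h3 s hs b ⟨hab, hsb⟩⟩
    obtain ⟨q2, hq2, C, hC1, hC2, hC3⟩ := rp_PQ hQ E hE q1
    have hCa : ∀ s ∈ C, ∃ a, ∀ s' ≤ s, ∀ b, a < b → s' ∉ meets (Z b) := fun s hs =>
      (hC2 s hs).1.2.2
    choose! a ha using hCa
    obtain ⟨a', ha'⟩ := bound_countable hC1 a
    obtain ⟨b, hb⟩ := exists_gt_om1 a'
    obtain ⟨q3, hq3, y, hy⟩ := hD3 b q2 hq2
    obtain ⟨_, _, hw, h3, _⟩ := hD4 b y q3 hy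
    obtain ⟨r, hr, hrE⟩ := hdense _ h3 (hq3.trans hq2)
    obtain ⟨s, hs, v, hv1, hv2⟩ := hC3 r hrE (le_trans hr.1 hq3)
    refine ha s hs v hv2 b ((ha' s hs).trans_lt hb) (meets_of_mem ?_)
    exact ⟨y, hD1 _ _ _ hy _ (le_trans hv1.1 hr.1), Finset.Subset.trans hr.2 hv1.2⟩
  obtain ⟨u, hu, huq, huZ⟩ := hunb
  have hfun : u ∈ IsFun f := by
    refine ⟨fun ξ => ?_, fun ξ x x' => ?_⟩
    · rw [mem_fex]
      intro v hvu
      obtain ⟨q', hq', y, hy⟩ := hD3 ξ v.1.1 (hvu.1.trans huq)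
      exact ⟨up v q' hq', up_le _ _ _, y.2, meets_of_mem ⟨y, hy, rfl⟩⟩
    · rw [mem_fimp]
      rintro r hr ⟨h1, h2⟩
      obtain ⟨s, hs, h3⟩ := exists_of_meets (hfd ξ x) h1
      obtain ⟨t, ht, h4⟩ := exists_of_meets (hfd ξ x') (down_meets _ _ h2 _ hs)
      obtain ⟨y, hy, rfl⟩ := hfd ξ x _ h3 _ ht
      obtain ⟨y', hy', rfl⟩ := h4
      refine ⟨r, le_rfl, ?_⟩
      have := hD2 _ _ _ _ hy hy'
      rw [mem_fground, this]
  have h1 := h.hccc Z f
  rw [mem_fimp] at h1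
  obtain ⟨r1, hr1, h2⟩ := h1 u hu ⟨huZ, hfun⟩
  obtain ⟨r2, hr2, a, h3⟩ := mem_fex.1 h2 r1 le_rfl
  obtain ⟨r3, hr3, b, hab, h4, h5, h6⟩ := mem_fex.1 h3 r2 le_rfl
  obtain ⟨r4, hr4, x, h7⟩ := mem_fex.1 h6 r3 le_rfl
  obtain ⟨r5, hr5, x', h8, h9, h10⟩ := mem_fex.1 h7 r4 le_rfl
  obtain ⟨r6, hr6, w, h11, h12⟩ := mem_fex.1 h10 r5 le_rfl
  obtain ⟨r7, hr7, h4'⟩ := exists_of_meets (hZd a)
    (down_meets _ _ h4 _ (hr6.trans (hr5.trans hr4)))
  obtain ⟨r8, hr8, h5'⟩ := exists_of_meets (hZd b)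
    (down_meets _ _ h5 _ (hr7.trans (hr6.trans (hr5.trans hr4))))
  obtain ⟨r9, hr9, h8'⟩ := exists_of_meets (hfd a x)
    (down_meets _ _ h8 _ (hr8.trans (hr7.trans hr6)))
  obtain ⟨v, hv9, h9'⟩ := exists_of_meets (hfd b x')
    (down_meets _ _ h9 _ (hr9.trans (hr8.trans (hr7.trans hr6))))
  have hv6 : v ≤ r6 := hv9.trans (hr9.trans (hr8.trans hr7))
  have hvq0 : v ≤ q0 := hv6.trans (hr6.trans (hr5.trans (hr4.trans (hr3.trans
    (hr2.trans (hr1.trans hu))))))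
  obtain ⟨y1, hy1, hy1r⟩ := hZd a _ h4' _ (hv9.trans (hr9.trans hr8))
  obtain ⟨y2, hy2, hy2r⟩ := hZd b _ h5' _ (hv9.trans hr9)
  obtain ⟨y1', hy1', rfl⟩ := hfd a x _ h8' _ hv9
  obtain ⟨y2', hy2', rfl⟩ := h9'
  obtain rfl := hD2 _ _ _ _ hy1 hy1'
  obtain rfl := hD2 _ _ _ _ hy2 hy2'
  have hw1 : v ∈ meets (R w y1.2) := down_meets _ _ h11 _ hv6
  have hw2 : v ∈ meets (R w y2.2) := down_meets _ _ h12 _ hv6
  have hvpre : v ∈ IsPreN R := down_IsPreN R _ h.hpre _ hvq0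
  obtain ⟨hφ1, _, hval1, _, hz1⟩ := hD4 _ _ _ hy1
  obtain ⟨hφ2, _, hval2, _, hz2⟩ := hD4 _ _ _ hy2
  have hv1 : v ≤ mkPQ v.1.1 (restr (Sle α) y1.1) hval1 := ⟨le_rfl, hy1r⟩
  have hv2 : v ≤ mkPQ v.1.1 (restr (Sle α) y2.1) hval2 := ⟨le_rfl, hy2r⟩
  have hlb : ∀ x ∈ fib y1.1 c ∪ fib y2.1 c, v ∈ meets (R w x) := by
    intro x hx
    rcases Finset.mem_union.1 hx with h1 | h1
    · exact IsPreN.trans hvpre hw1 (down_meets _ _ (hz1 x h1) _ hv1)
    · exact IsPreN.trans hvpre hw2 (down_meets _ _ (hz2 x h1) _ hv2)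
  obtain ⟨a0, ha0, u2, hu2v, hu2a⟩ := h.hAd _ v hvq0 ⟨w, hlb⟩
  have hres : Valid (Sle α) u2.1.1 (restr (Sle α) u2.1.2) :=
    valid_restr (fun _ => proper_Sall) (initial_Sle α) u2.2
  let G : Finset X := fib y1.1 c ∪ fib y2.1 c
  let t : Cond Q X W I := restr (Sle α) u2.1.2 ∪ G.image fun x => (c, x)
  have hmem : ∀ b, b ∈ t ↔ b ∈ restr (Sle α) u2.1.2 ∨ (b.1 = c ∧ b.2 ∈ G) := by
    rintro ⟨d, x⟩
    simp only [t, Finset.mem_union, Finset.mem_image, Prod.mk.injEq]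
    constructor
    · rintro (h1 | ⟨y, hy, rfl, rfl⟩)
      · exact Or.inl h1
      · exact Or.inr ⟨rfl, hy⟩
    · rintro (h1 | ⟨rfl, h1⟩)
      · exact Or.inl h1
      · exact Or.inr ⟨x, h1, rfl, rfl⟩
  have hnc : ∀ x, (c, x) ∉ restr (Sle α) u2.1.2 := fun x hx => hc (mem_restr.1 hx).2
  have ht : Valid (Sle α ∪ {c}) u2.1.1 t := by
    intro b hb
    rcases (hmem b).1 hb with h1 | ⟨h1, h2⟩
    · obtain ⟨h3, s, hs, hqs, hst⟩ := hres b h1
      refine ⟨Or.inl h3, s, ?_, hqs, hst.trans Finset.subset_union_left⟩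
      have h4 : fib t b.1 = fib (restr (Sle α) u2.1.2) b.1 := fib_congr fun x => by
        rw [hmem]
        constructor
        · rintro (h5 | ⟨h5, _⟩)
          · exact h5
          · simp only at h5
            rw [h5] at h3
            exact absurd h3 hc
        · exact Or.inl
      rw [h4]
      exact hs
    · refine ⟨Or.inr h1, a0.1, ?_, hu2a.1, ?_⟩
      · have h4 : fib t b.1 = G := by
          ext x
          rw [mem_fib, hmem, h1]
          constructor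
          · rintro (h5 | ⟨_, h5⟩)
            · exact absurd h5 (hnc x)
            · exact h5
          · exact fun h5 => Or.inr ⟨rfl, h5⟩
        rw [h4, h1, h.hnm]
        exact ⟨a0, ha0, rfl⟩
      · refine Finset.Subset.trans ?_ Finset.subset_union_left
        exact subset_restr hu2a.2 fun b hb => Or.inl ((h.hA _).memSlt ha0 hb)
  have hsub : ∀ y : Cond Q X W I × X, y.1 ∈ φ v.1.1 → restr (Sle α) y.1 ⊆ v.1.2 →
      fib y.1 c ⊆ G → y.1 ⊆ t := by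
    intro y hy hyr hG b hb
    rw [hmem]
    rcases (hv _ _ hy b hb).1 with h1 | h1
    · left
      exact mem_restr.2 ⟨hu2v.2 (hyr (mem_restr.2 ⟨hb, h1⟩)), h1⟩
    · right
      have h2 : b.1 = c := h1
      refine ⟨h2, hG ?_⟩
      rw [mem_fib, ← h2]
      exact hb
  have hs1 := hsub y1 hφ1 hy1r Finset.subset_union_left
  have hs2 := hsub y2 hφ2 hy2r Finset.subset_union_right
  have hab' : a ≠ b := hab
  rcases lt_or_gt_of_ne hab' with hlt | hlt
  · exact hD5 _ _ _ _ _ hlt hy2 hy1 _ hu2v.1 t ht hs2 hs1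
  · exact hD5 _ _ _ _ _ hlt hy1 hy2 _ hu2v.1 t ht hs1 hs2

theorem Data.mem_V (hQ : SC Q) (h : Data α q0 R A c) : c ∈ V α :=
  mem_V_of hQ h.hst h.proper (h.RP hQ)

theorem Data.mem_Sall (hQ : SC Q) (h : Data α q0 R A c) : c ∈ (Sall : Set (Code Q X W I)) :=
  MK.mem_Sall.2 (by rw [h.hst]; exact h.mem_V hQ)

/-- a condition extends to one which puts into the filter an element of a given dense set below
all elements already put into it -/
theorem Data.ext [Nonempty X] (hQ : SC Q) (h : Data α q0 R A c) {D : X → Set (PQ Q X W I)}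
    (hD : q0 ∈ IsDenseN R D) (hDb : ∀ x, Below α (D x)) {q : PQ Q X W I} (hq : q ≤ q0) :
    ∃ r ≤ q, ∃ d, (c, d) ∈ r.1.2 ∧ r ∈ meets (D d) ∧
      ∀ x, (c, x) ∈ q.1.2 → r ∈ meets (R d x) := by
  have hz : ∃ z, ∀ x ∈ fib q.1.2 c, q ∈ meets (R z x) := by
    rcases (fib q.1.2 c).eq_empty_or_nonempty with h1 | ⟨y, hy⟩
    · rw [h1]
      exact ⟨Classical.arbitrary X, by simp⟩
    · rw [mem_fib] at hy
      obtain ⟨_, s, hs, hqs, hsq⟩ := q.2 _ hy
      obtain ⟨a, ha, rfl⟩ := (h.hnm _ s).1 hs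
      obtain ⟨_, z, hz⟩ := h.hAlb _ a ha
      exact ⟨z, fun x hx => down_meets _ _ (hz x hx) _ ⟨hqs, hsq⟩⟩
  obtain ⟨z, hz⟩ := hz
  obtain ⟨u, hu, d, hud, hur⟩ := mem_fex.1 (hD z) q hq
  have huq : u ≤ q0 := hu.trans hq
  have hupre : u ∈ IsPreN R := down_IsPreN R _ h.hpre _ huq
  have hdx : ∀ x ∈ insert d (fib q.1.2 c), u ∈ meets (R d x) := by
    intro x hx
    rcases Finset.mem_insert.1 hx with rfl | hx
    · exact IsPreN.refl hupre _
    · exact IsPreN.trans hupre hur (down_meets _ _ (hz x hx) _ hu)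
  obtain ⟨a, ha, u2, hu2u, hu2a⟩ := h.hAd _ u huq ⟨d, hdx⟩
  have hres : Valid (Slt α) u2.1.1 (restr (Slt α) u2.1.2) :=
    valid_restr (fun _ => proper_Sall) (initial_Slt α) u2.2
  have hqu2 : u2 ≤ q := hu2u.trans hu
  have hv : Valid Sall u2.1.1 (restr (Slt α) u2.1.2 ∪ q.1.2) :=
    amalg_one (Slt_sub_Sall α) (q.2.le hqu2.1) hres (restr_mono hqu2.2)
  let t : Cond Q X W I := insert (c, d) (restr (Slt α) u2.1.2 ∪ q.1.2)
  have hnc : ∀ x, (c, x) ∉ restr (Slt α) u2.1.2 := fun x hx => h.notMem_Slt (mem_restr.1 hx).2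
  have haub : a.1.2 ⊆ restr (Slt α) u2.1.2 :=
    subset_restr hu2a.2 fun b hb => (h.hA _).memSlt ha hb
  have ht : Valid Sall u2.1.1 t := by
    intro b hb
    by_cases hbc : b.1 = c
    · refine ⟨by rw [hbc]; exact h.mem_Sall hQ, a.1, ?_, hu2a.1, ?_⟩
      · have h4 : fib t b.1 = insert d (fib q.1.2 c) := by
          ext x
          rw [mem_fib, Finset.mem_insert, Finset.mem_insert, Finset.mem_union, mem_fib, hbc]
          constructor
          · rintro (h5 | h5 | h5)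
            · exact Or.inl (Prod.mk.inj h5).2
            · exact absurd h5 (hnc x)
            · exact Or.inr h5
          · rintro (rfl | h5)
            · exact Or.inl rfl
            · exact Or.inr (Or.inr h5)
        rw [h4, hbc, h.hnm]
        exact ⟨a, ha, rfl⟩
      · exact haub.trans (Finset.subset_union_left.trans (Finset.subset_insert _ _))
    · have hb' : b ∈ restr (Slt α) u2.1.2 ∪ q.1.2 := by
        rcases Finset.mem_insert.1 hb with h1 | h1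
        · exact absurd (by rw [h1]) hbc
        · exact h1
      obtain ⟨h1, s, hs, hqs, hst⟩ := hv b hb'
      refine ⟨h1, s, ?_, hqs, hst.trans (Finset.subset_insert _ _)⟩
      have h4 : fib t b.1 = fib (restr (Slt α) u2.1.2 ∪ q.1.2) b.1 := fib_congr fun x => by
        rw [Finset.mem_insert]
        constructor
        · rintro (h5 | h5)
          · exact absurd (Prod.mk.inj h5).1 hbc
          · exact h5
        · exact Or.inr
      rw [h4]
      exact hs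
  let r : PQ Q X W I := ⟨(u2.1.1, t), ht⟩
  have hrle : r ≤ rlt α u2 :=
    ⟨le_rfl, Finset.Subset.trans Finset.subset_union_left (Finset.subset_insert _ _)⟩
  refine ⟨r, ⟨hqu2.1, Finset.Subset.trans Finset.subset_union_right (Finset.subset_insert _ _)⟩, d,
    Finset.mem_insert_self _ _, ?_, ?_⟩
  · exact down_meets _ _ (meets_rlt (hDb d) (down_meets _ _ hud _ hu2u)) _ hrle
  · intro x hx
    have h1 : u2 ∈ meets (R d x) :=
      down_meets _ _ (hdx x (Finset.mem_insert_of_mem (mem_fib.2 hx))) _ hu2u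
    exact down_meets _ _ (meets_rlt (h.hR d x) h1) _ hrle

/-- the generic filter -/
def genF (c : Code Q X W I) (R : X → X → Set (PQ Q X W I)) : X → Set (PQ Q X W I) :=
  fun y => {p | ∃ x, (c, x) ∈ p.1.2 ∧ p ∈ meets (R x y)}

theorem down_genF (c : Code Q X W I) (R : X → X → Set (PQ Q X W I)) (y : X) :
    Down (genF c R y) := by
  rintro p ⟨x, hx, hp⟩ q hq
  exact ⟨x, hq.2 hx, down_meets _ _ hp _ hq⟩

theorem Data.filter [Nonempty X] (hQ : SC Q) (h : Data α q0 R A c)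
    {D : X → X → Set (PQ Q X W I)}
    (hD : ∀ i, q0 ∈ IsDenseN R (D i)) (hDb : ∀ i x, Below α (D i x)) :
    q0 ∈ fand (IsFilterN R (genF c R))
        (fall fun i => fex fun x => fand (meets (genF c R x)) (meets (D i x))) := by
  have i0 : X := Classical.arbitrary X
  have hmeet : q0 ∈ fall fun i => fex fun x => fand (meets (genF c R x)) (meets (D i x)) := by
    intro i
    rw [mem_fex]
    intro q hq
    obtain ⟨r, hr, d, hd, hrD, _⟩ := h.ext hQ (hD i) (hDb i) hq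
    have hrpre : r ∈ IsPreN R := down_IsPreN R _ h.hpre _ (hr.trans hq)
    exact ⟨r, hr, d, meets_of_mem ⟨d, hd, IsPreN.refl hrpre d⟩, hrD⟩
  refine ⟨⟨?_, ?_, ?_⟩, hmeet⟩
  · rw [mem_fex]
    intro q hq
    obtain ⟨r, hr, x, hx, _⟩ := mem_fex.1 (hmeet i0) q hq
    exact ⟨r, hr, x, hx⟩
  · intro x y
    rw [mem_fimp]
    rintro q hq ⟨h1, h2⟩
    obtain ⟨r, hr, x', hx', hrx⟩ := exists_of_meets (down_genF c R x) h1
    have hrpre : r ∈ IsPreN R := down_IsPreN R _ h.hpre _ (hr.trans hq)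
    exact ⟨r, hr, meets_of_mem ⟨x', hx', IsPreN.trans hrpre hrx (down_meets _ _ h2 _ hr)⟩⟩
  · intro x y
    rw [mem_fimp]
    rintro q hq ⟨h1, h2⟩
    obtain ⟨r, hr, x', hx', hrx⟩ := exists_of_meets (down_genF c R x) h1
    obtain ⟨s, hs, y', hy', hsy⟩ :=
      exists_of_meets (down_genF c R y) (down_meets _ _ h2 _ hr)
    have hsq : s ≤ q0 := hs.trans (hr.trans hq)
    obtain ⟨t, ht, d, hd, _, htd⟩ := h.ext hQ (hD i0) (hDb i0) hsq
    have htpre : t ∈ IsPreN R := down_IsPreN R _ h.hpre _ (ht.trans hsq)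
    refine ⟨t, ht.trans (hs.trans hr), ?_⟩
    refine mem_fex_of_mem d (down_fand (down_meets _) (down_fand (down_meets _) (down_meets _)))
      ⟨meets_of_mem ⟨d, hd, IsPreN.refl htpre d⟩, ?_, ?_⟩
    · exact IsPreN.trans htpre (htd x' (hs.2 hx')) (down_meets _ _ hrx _ (ht.trans hs))
    · exact IsPreN.trans htpre (htd y' hy') (down_meets _ _ hsy _ ht)

end Step

/-- The iteration forces Martin's axiom. -/
theorem martinHolds [Infinite X] [Infinite I] (hQ : SC Q) (hQI : #(Q × ℕ) ≤ #I) (hXI : #X ≤ #I)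
    (hW : Bdd I W) (p : PQ Q X W I) : p ∈ MartinHolds (PQ Q X W I) X := by
  intro R D
  rw [mem_fimp]
  rintro q0 _ ⟨hpre, hccc, hD⟩
  refine ⟨q0, le_rfl, ?_⟩
  have hQne : Nonempty Q := ⟨q0.1.1⟩
  -- small names
  choose R' hR'c hR' using fun x y => exists_small_name hQ (R x y)
  choose D' hD'c hD' using fun i x => exists_small_name hQ (D i x)
  have hRe : ∀ x y, meets (R x y) = meets (R' x y) := fun x y => (hR' x y).symm
  have hDe : ∀ i x, meets (D i x) = meets (D' i x) := fun i x => (hD' i x).symm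
  have hpre' : q0 ∈ IsPreN R' := by
    simpa only [IsPreN, hRe] using hpre
  have hccc' : q0 ∈ CCCN R' := by
    simpa only [CCCN, CompatN, hRe] using hccc
  have hD2 : ∀ i, q0 ∈ IsDenseN R' (D' i) := by
    intro i
    have := hD i
    simpa only [IsDenseN, hRe, hDe] using this
  choose A hAc hAlb hAd using fun F : Finset X => exists_predense_small (Q := Q) (X := X)
    (W := W) (I := I) hQ {r | r ≤ q0 ∧ ∃ z, ∀ x ∈ F, r ∈ meets (R' z x)} (by
      rintro r ⟨h1, z, h2⟩ s hs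
      exact ⟨hs.trans h1, z, fun x hx => down_meets _ _ (h2 x hx) _ hs⟩)
  have hXX : #(X × X) ≤ #I := by
    rw [← Cardinal.mul_def, Cardinal.mul_eq_self (Cardinal.aleph0_le_mk X)]
    exact hXI
  have hFX : #(Finset X) ≤ #I := by
    rw [Cardinal.mk_finset_of_infinite]
    exact hXI
  obtain ⟨α1, h1⟩ := exists_below hW (ι := X × X) hXX (fun i => R' i.1 i.2)
    fun i => (hR'c i.1 i.2).trans hQI
  obtain ⟨α2, h2⟩ := exists_below hW (ι := X × X) hXX (fun i => D' i.1 i.2)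
    fun i => (hD'c i.1 i.2).trans hQI
  obtain ⟨α3, h3⟩ := exists_below hW (ι := Finset X) hFX A fun F => (hAc F).trans hQI
  let α := max α1 (max α2 α3)
  have hα1 : α1 ≤ α := le_max_left _ _
  have hα2 : α2 ≤ α := (le_max_left _ _).trans (le_max_right _ _)
  have hα3 : α3 ≤ α := (le_max_right _ _).trans (le_max_right _ _)
  obtain ⟨c, hcst, hcnm⟩ := Code.exists_code (I := I) α (fun F => Subtype.val '' A F)
    fun F => Cardinal.mk_image_le.trans ((hAc F).trans hQI)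
  have hdata : Data α q0 R' A c := by
    refine ⟨hpre', hccc', fun x y => h1 α hα1 (x, y), fun F => h3 α hα3 F,
      fun F a ha => hAlb F ha, ?_, hcst, ?_⟩
    · intro F p hp hz
      exact hAd F p ⟨hp, hz⟩
    · intro F s
      rw [hcnm]
      constructor
      · rintro ⟨a, ha, rfl⟩
        exact ⟨a, ha, rfl⟩
      · rintro ⟨a, ha, rfl⟩
        exact ⟨a, ha, rfl⟩
  have hfil := hdata.filter hQ hD2 (fun i x => h2 α hα2 (i, x))
  refine mem_fex_of_mem (genF c R') (down_fand (down_IsFilterN _ _)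
    (down_fall fun _ => down_fex _)) ?_
  simpa only [IsFilterN, hRe, hDe] using hfil

/-- `ω₁` is preserved. -/
theorem omegaOnePreserved (hQ : SC Q) (p : PQ Q X W I) :
    p ∈ OmegaOnePreserved (PQ Q X W I) := by
  intro q _ hq
  obtain ⟨r, _, R, hR1, hR2⟩ := mem_fex.1 hq q le_rfl
  -- countably many candidates for every value
  let φ : ℕ → Set (PQ Q X W I) := fun n => {u | u ≤ r ∧ ∃ y, u ∈ meets (R n y)}
  have hφ : ∀ n, Down (φ n) := by
    rintro n u ⟨h1, y, h2⟩ v hv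
    exact ⟨hv.trans h1, y, down_meets _ _ h2 _ hv⟩
  obtain ⟨q', hq', hmeet⟩ := hQ.meet (q₀ := r.1.1)
    (fun n => {q' | ∃ B : Set Om1, B.Countable ∧ ∀ u : PQ Q X W I, u ≤ r → u.1.1 ≤ q' →
      ∀ y, u ∈ meets (R n y) → y ∈ B})
    (by
      rintro n q1 ⟨B, hB, h⟩ q2 h12
      exact ⟨B, hB, fun u hu huq => h u hu (huq.trans h12)⟩)
    (fun n q1 _ => by
      obtain ⟨q2, hq2, C, hC1, hC2, hC3⟩ := rp_PQ hQ (φ n) (hφ n) q1
      have hy : ∀ s ∈ C, ∃ y, s ∈ meets (R n y) := fun s hs => (hC2 s hs).1.2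
      choose! y hy using hy
      refine ⟨q2, hq2, y '' C, hC1.image _, fun u hu huq z hz => ?_⟩
      obtain ⟨s, hs, v, hv1, hv2⟩ := hC3 u ⟨hu, z, hz⟩ huq
      refine ⟨s, hs, ?_⟩
      exact IsFun.unique (down_IsFun R _ hR1 v (hv1.trans hu)) (down_meets _ _ (hy s hs) _ hv2)
        (down_meets _ _ hz _ hv1))
  choose B hB hBR using hmeet
  obtain ⟨b, hb⟩ := bound_countable (Set.countable_iUnion hB) id
  obtain ⟨b', hb'⟩ := exists_gt_om1 b
  obtain ⟨u, hu, n, hn⟩ := mem_fex.1 (hR2 b') (up r q' hq') (up_le _ _ _)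
  have h1 : b' ∈ B n := hBR n u (hu.trans (up_le _ _ _)) hu.1 b' hn
  exact absurd (hb b' (Set.mem_iUnion.2 ⟨n, h1⟩)) (not_le.2 hb')

end Pool.Agent.D0H62.MK
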