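import Pool.Agent.D0H62.MK.Forced

/-!
# The forcing notion which adds a Kurepa family with countable conditions
-/

set_option autoImplicit false

namespace Pool.Agent.D0H62.MK

open Classical Cardinal Pool.Agent.Helper669.Forcing Pool.Agent.W684.FM

/-- Conditions of the forcing notion which adds a Kurepa family whose members are indexed by `K`:
`δ` is the height, `(α, n, η) ∈ L` says that `η` belongs to the `n`-th set of the countable family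
of subsets of `α`, and `(ξ, η) ∈ f` says that `η` belongs to the set with index `ξ`. -/
structure KC (K : Type) : Type where
  δ : Om1
  L : Set (Om1 × ℕ × Om1)
  D : Set K
  f : Set (K × Om1)
  hL : ∀ α n η, (α, n, η) ∈ L → α ≤ δ ∧ η < α
  hD : D.Countable
  hf : ∀ ξ η, (ξ, η) ∈ f → ξ ∈ D ∧ η < δ
  e : ∀ α ≤ δ, ∃ n, ∀ η < α, (α, n, η) ∉ L
  cap : ∀ ξ ∈ D, ∀ α ≤ δ, ∃ n, ∀ η < α, ((ξ, η) ∈ f ↔ (α, n, η) ∈ L)

variable {K : Type}

instance : Preorder (KC K) where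
  le q p := p.δ ≤ q.δ ∧ (∀ α ≤ p.δ, ∀ n, ∀ η < α, ((α, n, η) ∈ q.L ↔ (α, n, η) ∈ p.L)) ∧
    p.D ⊆ q.D ∧ ∀ ξ ∈ p.D, ∀ η < p.δ, ((ξ, η) ∈ q.f ↔ (ξ, η) ∈ p.f)
  le_refl p := ⟨le_rfl, fun _ _ _ _ _ => Iff.rfl, Set.Subset.refl _, fun _ _ _ _ => Iff.rfl⟩
  le_trans p q r h1 h2 := ⟨h2.1.trans h1.1,
    fun α hα n η hη => (h1.2.1 α (hα.trans h2.1) n η hη).trans (h2.2.1 α hα n η hη),
    h2.2.2.1.trans h1.2.2.1,
    fun ξ hξ η hη => (h1.2.2.2 ξ (h2.2.2.1 hξ) η (hη.trans_le h2.1)).trans (h2.2.2.2 ξ hξ η hη)⟩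

theorem KC.le_def {q p : KC K} : q ≤ p ↔ p.δ ≤ q.δ ∧
    (∀ α ≤ p.δ, ∀ n, ∀ η < α, ((α, n, η) ∈ q.L ↔ (α, n, η) ∈ p.L)) ∧
    p.D ⊆ q.D ∧ ∀ ξ ∈ p.D, ∀ η < p.δ, ((ξ, η) ∈ q.f ↔ (ξ, η) ∈ p.f) := Iff.rfl

/-- construction of conditions -/
theorem KC.build (A : Set Om1) (L0 : Set (Om1 × ℕ × Om1)) (D : Set K) (hD : D.Countable)
    (F : K → Om1 → Prop) (δ' : Om1) (hA : ∀ α ∈ A, α ≤ δ')
    (he : ∀ α ∈ A, ∃ n, ∀ η < α, (α, n, η) ∉ L0)
    (hcap : ∀ ξ ∈ D, ∀ α ∈ A, ∃ n, ∀ η < α, (F ξ η ↔ (α, n, η) ∈ L0)) :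
    ∃ q : KC K, q.δ = δ' ∧ q.D = D ∧
      (∀ α ∈ A, ∀ n, ∀ η < α, ((α, n, η) ∈ q.L ↔ (α, n, η) ∈ L0)) ∧
      ∀ ξ ∈ D, ∀ η < δ', ((ξ, η) ∈ q.f ↔ F ξ η) := by
  obtain ⟨en, hen⟩ : ∃ en : ℕ → Option K, insert none (some '' D) = Set.range en :=
    ((hD.image some).insert none).exists_eq_range (Set.insert_nonempty _ _)
  have h1 : ∃ n, en n = none := by
    have : (none : Option K) ∈ Set.range en := by
      rw [← hen]
      exact Set.mem_insert _ _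
    exact this
  have h2 : ∀ ξ ∈ D, ∃ n, en n = some ξ := by
    intro ξ hξ
    have : some ξ ∈ Set.range en := by
      rw [← hen]
      exact Set.mem_insert_of_mem _ ⟨ξ, hξ, rfl⟩
    exact this
  have hlv : ∀ α n η, (α, n, η) ∈ {x : Om1 × ℕ × Om1 | x.1 ≤ δ' ∧ x.2.2 < x.1 ∧
      ((x.1 ∈ A ∧ x ∈ L0) ∨ (x.1 ∉ A ∧ ∃ ξ ∈ D, en x.2.1 = some ξ ∧ F ξ x.2.2))} ↔
      (α ≤ δ' ∧ η < α ∧ ((α ∈ A ∧ (α, n, η) ∈ L0) ∨
        (α ∉ A ∧ ∃ ξ ∈ D, en n = some ξ ∧ F ξ η))) := fun α n η => Iff.rfl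
  refine ⟨⟨δ', {x : Om1 × ℕ × Om1 | x.1 ≤ δ' ∧ x.2.2 < x.1 ∧
      ((x.1 ∈ A ∧ x ∈ L0) ∨ (x.1 ∉ A ∧ ∃ ξ ∈ D, en x.2.1 = some ξ ∧ F ξ x.2.2))}, D,
      {x | x.1 ∈ D ∧ x.2 < δ' ∧ F x.1 x.2}, ?_, hD, ?_, ?_, ?_⟩, rfl, rfl, ?_, ?_⟩
  · intro α n η h
    exact ⟨h.1, h.2.1⟩
  · intro ξ η h
    exact ⟨h.1, h.2.1⟩
  · intro α hα
    by_cases hαA : α ∈ A
    · obtain ⟨n, hn⟩ := he α hαA
      refine ⟨n, fun η hη h => ?_⟩
      rcases ((hlv _ _ _).1 h).2.2 with h3 | h3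
      · exact hn η hη h3.2
      · exact h3.1 hαA
    · obtain ⟨n, hn⟩ := h1
      refine ⟨n, fun η hη h => ?_⟩
      rcases ((hlv _ _ _).1 h).2.2 with h3 | ⟨_, ξ, _, h4, _⟩
      · exact hαA h3.1
      · rw [hn] at h4
        exact absurd h4 (by simp)
  · intro ξ hξ α hα
    by_cases hαA : α ∈ A
    · obtain ⟨n, hn⟩ := hcap ξ hξ α hαA
      refine ⟨n, fun η hη => ?_⟩
      rw [hlv]
      constructor
      · intro h
        exact ⟨hα, hη, Or.inl ⟨hαA, (hn η hη).1 h.2.2⟩⟩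
      · rintro ⟨_, _, h3 | h3⟩
        · exact ⟨hξ, hη.trans_le hα, (hn η hη).2 h3.2⟩
        · exact absurd hαA h3.1
    · obtain ⟨n, hn⟩ := h2 ξ hξ
      refine ⟨n, fun η hη => ?_⟩
      rw [hlv]
      constructor
      · intro h
        exact ⟨hα, hη, Or.inr ⟨hαA, ξ, hξ, hn, h.2.2⟩⟩
      · rintro ⟨_, _, h3 | ⟨_, ξ', _, h4, h5⟩⟩
        · exact absurd h3.1 hαA
        · rw [hn] at h4
          obtain rfl := Option.some.inj h4
          exact ⟨hξ, hη.trans_le hα, h5⟩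
  · intro α hα n η hη
    rw [hlv]
    constructor
    · rintro ⟨_, _, h3 | h3⟩
      · exact h3.2
      · exact absurd hα h3.1
    · intro h
      exact ⟨hA α hα, hη, Or.inl ⟨hα, h⟩⟩
  · intro ξ hξ η hη
    constructor
    · intro h
      exact h.2.2
    · intro h
      exact ⟨hξ, hη, h⟩

/-- The forcing notion is `σ`-closed. -/
theorem KC.closed : SC (KC K) := by
  intro q hq
  have hanti : ∀ n m, n ≤ m → q m ≤ q n := by
    intro n m hnm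
    induction m, hnm using Nat.le_induction with
    | base => exact le_rfl
    | succ m _ ih => exact (hq m).trans ih
  obtain ⟨b, hb⟩ := exists_bound fun n => (q n).δ
  have hL : ∀ n, ∀ α ≤ (q n).δ, ∀ m, ∀ η < α,
      ((α, m, η) ∈ {x : Om1 × ℕ × Om1 | ∃ n, x.1 ≤ (q n).δ ∧ x ∈ (q n).L} ↔
        (α, m, η) ∈ (q n).L) := by
    intro n α hα m η hη
    constructor
    · rintro ⟨k, hk1, hk2⟩
      rcases le_total n k with h | h
      · exact ((hanti n k h).2.1 α hα m η hη).1 hk2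
      · exact ((hanti k n h).2.1 α hk1 m η hη).2 hk2
    · exact fun h => ⟨n, hα, h⟩
  have hF : ∀ n, ∀ ξ ∈ (q n).D, ∀ η < (q n).δ,
      ((∃ n, ξ ∈ (q n).D ∧ η < (q n).δ ∧ (ξ, η) ∈ (q n).f) ↔ (ξ, η) ∈ (q n).f) := by
    intro n ξ hξ η hη
    constructor
    · rintro ⟨k, hk1, hk2, hk3⟩
      rcases le_total n k with h | h
      · exact ((hanti n k h).2.2.2 ξ hξ η hη).1 hk3
      · exact ((hanti k n h).2.2.2 ξ hk1 η hk2).2 hk3
    · exact fun h => ⟨n, hξ, hη, h⟩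
  obtain ⟨r, hr1, hr2, hr3, hr4⟩ := KC.build {α | ∃ n, α ≤ (q n).δ}
    {x : Om1 × ℕ × Om1 | ∃ n, x.1 ≤ (q n).δ ∧ x ∈ (q n).L} (⋃ n, (q n).D)
    (Set.countable_iUnion fun n => (q n).hD)
    (fun ξ η => ∃ n, ξ ∈ (q n).D ∧ η < (q n).δ ∧ (ξ, η) ∈ (q n).f) b
    (by
      rintro α ⟨n, hn⟩
      exact hn.trans (hb n))
    (by
      rintro α ⟨n, hn⟩
      obtain ⟨m, hm⟩ := (q n).e α hn
      exact ⟨m, fun η hη h => hm η hη ((hL n α hn m η hη).1 h)⟩)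
    (by
      rintro ξ hξ α ⟨n, hn⟩
      obtain ⟨k, hk⟩ := Set.mem_iUnion.1 hξ
      have h1 : ξ ∈ (q (max n k)).D := (hanti k _ (le_max_right _ _)).2.2.1 hk
      have h2 : α ≤ (q (max n k)).δ := hn.trans (hanti n _ (le_max_left _ _)).1
      obtain ⟨m, hm⟩ := (q (max n k)).cap ξ h1 α h2
      refine ⟨m, fun η hη => ?_⟩
      rw [hL (max n k) α h2 m η hη, hF (max n k) ξ h1 η (hη.trans_le h2)]
      exact hm η hη)
  refine ⟨r, fun n => ⟨?_, ?_, ?_, ?_⟩⟩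
  · rw [hr1]
    exact hb n
  · intro α hα m η hη
    rw [hr3 α ⟨n, hα⟩ m η hη]
    exact hL n α hα m η hη
  · rw [hr2]
    exact Set.subset_iUnion (fun n => (q n).D) n
  · intro ξ hξ η hη
    rw [hr4 ξ (Set.mem_iUnion.2 ⟨n, hξ⟩) η (hη.trans_le (hb n))]
    exact hF n ξ hξ η hη

/-- extension of conditions -/
theorem KC.extend (q : KC K) (D : Set K) (hD : D.Countable) (hqD : q.D ⊆ D) (F : K → Om1 → Prop)
    (δ' : Om1) (hδ : q.δ ≤ δ') (hF : ∀ ξ ∈ q.D, ∀ η < q.δ, (F ξ η ↔ (ξ, η) ∈ q.f))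
    (hF' : ∀ ξ ∈ D, ξ ∉ q.D → ∀ η < q.δ, ¬ F ξ η) :
    ∃ r ≤ q, r.δ = δ' ∧ r.D = D ∧ ∀ ξ ∈ D, ∀ η < δ', ((ξ, η) ∈ r.f ↔ F ξ η) := by
  obtain ⟨r, hr1, hr2, hr3, hr4⟩ := KC.build (Set.Iic q.δ) q.L D hD F δ'
    (fun α hα => le_trans hα hδ) (fun α hα => q.e α hα)
    (by
      intro ξ hξ α hα
      by_cases h : ξ ∈ q.D
      · obtain ⟨n, hn⟩ := q.cap ξ h α hα
        refine ⟨n, fun η hη => ?_⟩
        rw [hF ξ h η (lt_of_lt_of_le hη hα)]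
        exact hn η hη
      · obtain ⟨n, hn⟩ := q.e α hα
        refine ⟨n, fun η hη => ?_⟩
        exact iff_of_false (hF' ξ hξ h η (lt_of_lt_of_le hη hα)) (hn η hη))
  refine ⟨r, ⟨?_, ?_, ?_, ?_⟩, hr1, hr2, hr4⟩
  · rw [hr1]
    exact hδ
  · intro α hα n η hη
    exact hr3 α hα n η hη
  · rw [hr2]
    exact hqD
  · intro ξ hξ η hη
    rw [hr4 ξ (hqD hξ) η (hη.trans_le hδ)]
    exact hF ξ hξ η hη

/-- the height and the domain can be increased -/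
theorem KC.extend_to (q : KC K) (ξ : K) (α : Om1) : ∃ r ≤ q, α ≤ r.δ ∧ ξ ∈ r.D := by
  obtain ⟨r, hr, h1, h2, _⟩ := q.extend (insert ξ q.D) (q.hD.insert ξ) (Set.subset_insert _ _)
    (fun ξ η => (ξ, η) ∈ q.f) (max α q.δ) (le_max_right _ _) (fun _ _ _ _ => Iff.rfl)
    (fun ζ _ hζ η _ h => hζ (q.hf _ _ h).1)
  refine ⟨r, hr, ?_, ?_⟩
  · rw [h1]
    exact le_max_left _ _
  · rw [h2]
    exact Set.mem_insert _ _

/-- two members of the family can be made different -/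
theorem KC.extend_ne (q : KC K) {ξ ξ' : K} (hne : ξ ≠ ξ') : ∃ r ≤ q, ξ ∈ r.D ∧ ξ' ∈ r.D ∧
    ∃ η < r.δ, (ξ, η) ∈ r.f ∧ (ξ', η) ∉ r.f := by
  obtain ⟨q1, hq1, _, h1⟩ := q.extend_to ξ q.δ
  obtain ⟨q2, hq2, _, h2⟩ := q1.extend_to ξ' q1.δ
  have h1' : ξ ∈ q2.D := hq2.2.2.1 h1
  obtain ⟨δ', hδ'⟩ := exists_gt_om1 q2.δ
  obtain ⟨r, hr, h3, h4, h5⟩ := q2.extend q2.D q2.hD (Set.Subset.refl _)
    (fun ζ η => (ζ, η) ∈ q2.f ∨ (ζ = ξ ∧ η = q2.δ)) δ' hδ'.le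
    (by
      intro ζ _ η hη
      constructor
      · rintro (h | ⟨_, h⟩)
        · exact h
        · exact absurd h hη.ne
      · exact Or.inl)
    (fun ζ hζ hζ' => absurd hζ hζ')
  refine ⟨r, hr.trans (hq2.trans hq1), ?_, ?_, q2.δ, ?_, ?_, ?_⟩
  · rw [h4]
    exact h1'
  · rw [h4]
    exact h2
  · rw [h3]
    exact hδ'
  · rw [h5 ξ h1' q2.δ hδ']
    exact Or.inr ⟨rfl, rfl⟩
  · rw [h5 ξ' h2 q2.δ hδ']
    rintro (h | ⟨h, _⟩)
    · exact absurd (q2.hf _ _ h).2 (lt_irrefl _)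
    · exact hne h.symm

/-- amalgamation of conditions which agree on the common part of the domain -/
theorem KC.amalg (p q : KC K) (hδ : p.δ = q.δ) (hL : p.L = q.L)
    (hf : ∀ ξ ∈ p.D, ξ ∈ q.D → ∀ η, ((ξ, η) ∈ p.f ↔ (ξ, η) ∈ q.f)) :
    ∃ r, r ≤ p ∧ r ≤ q := by
  have h1 : ∀ ξ ∈ p.D, ∀ η, (((ξ, η) ∈ p.f ∨ (ξ, η) ∈ q.f) ↔ (ξ, η) ∈ p.f) := by
    intro ξ hξ η
    constructor
    · rintro (h | h)
      · exact h
      · exact (hf ξ hξ (q.hf _ _ h).1 η).2 h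
    · exact Or.inl
  have h2 : ∀ ξ ∈ q.D, ∀ η, (((ξ, η) ∈ p.f ∨ (ξ, η) ∈ q.f) ↔ (ξ, η) ∈ q.f) := by
    intro ξ hξ η
    constructor
    · rintro (h | h)
      · exact (hf ξ (p.hf _ _ h).1 hξ η).1 h
      · exact h
    · exact Or.inr
  obtain ⟨r, hr1, hr2, hr3, hr4⟩ := KC.build (Set.Iic p.δ) p.L (p.D ∪ q.D) (p.hD.union q.hD)
    (fun ξ η => (ξ, η) ∈ p.f ∨ (ξ, η) ∈ q.f) p.δ (fun α hα => hα) (fun α hα => p.e α hα)
    (by
      rintro ξ (hξ | hξ) α hα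
      · obtain ⟨n, hn⟩ := p.cap ξ hξ α hα
        refine ⟨n, fun η hη => ?_⟩
        rw [h1 ξ hξ]
        exact hn η hη
      · obtain ⟨n, hn⟩ := q.cap ξ hξ α (by
          rw [← hδ]
          exact hα)
        refine ⟨n, fun η hη => ?_⟩
        rw [h2 ξ hξ, hL]
        exact hn η hη)
  refine ⟨r, ⟨hr1.ge, fun α hα n η hη => hr3 α hα n η hη, ?_, ?_⟩, ⟨?_, ?_, ?_, ?_⟩⟩
  · rw [hr2]
    exact Set.subset_union_left
  · intro ξ hξ η hη
    rw [hr4 ξ (Or.inl hξ) η hη]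
    exact h1 ξ hξ η
  · rw [hr1]
    exact hδ.ge
  · intro α hα n η hη
    rw [← hL]
    exact hr3 α (by rw [hδ]; exact hα) n η hη
  · rw [hr2]
    exact Set.subset_union_right
  · intro ξ hξ η hη
    rw [hr4 ξ (Or.inr hξ) η (by rw [hδ]; exact hη)]
    exact h2 ξ hξ η

/-! ### The chain condition -/

theorem KC.countable_L (p : KC K) : p.L.Countable := by
  have h1 : (Set.Iic p.δ).Countable := by
    rw [← Set.Iio_insert]
    exact (countable_Iio p.δ).insert _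
  have h2 : (⋃ α ∈ Set.Iic p.δ, ⋃ n : ℕ, (fun η => (α, n, η)) '' Set.Iio p.δ).Countable :=
    h1.biUnion fun α _ => Set.countable_iUnion fun n => (countable_Iio p.δ).image _
  refine h2.mono ?_
  rintro ⟨α, n, η⟩ h
  obtain ⟨h3, h4⟩ := p.hL _ _ _ h
  exact Set.mem_iUnion₂.2 ⟨α, h3, Set.mem_iUnion.2 ⟨n, η, h4.trans_le h3, rfl⟩⟩

theorem KC.countable_f (p : KC K) : p.f.Countable := by
  have h2 : (⋃ ξ ∈ p.D, (fun η => (ξ, η)) '' Set.Iio p.δ).Countable :=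
    p.hD.biUnion fun ξ _ => (countable_Iio p.δ).image _
  refine h2.mono ?_
  rintro ⟨ξ, η⟩ h
  obtain ⟨h3, h4⟩ := p.hf _ _ h
  exact Set.mem_iUnion₂.2 ⟨ξ, h3, η, h4, rfl⟩

theorem mk_countable_sets {A : Type} (hA : #A ≤ 𝔠) : #{t : Set A // #t ≤ ℵ₀} ≤ 𝔠 := by
  refine (Cardinal.mk_bounded_set_le A ℵ₀).trans ?_
  calc max #A ℵ₀ ^ ℵ₀ ≤ 𝔠 ^ ℵ₀ :=
        Cardinal.power_le_power_right (max_le hA Cardinal.aleph0_le_continuum)
    _ = 𝔠 := Cardinal.continuum_power_aleph0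

/-- types of traces -/
abbrev Tr : Type := Om1 × {t : Set (Om1 × ℕ × Om1) // #t ≤ ℵ₀} × Set ℕ ×
  {t : Set (ℕ × Om1) // #t ≤ ℵ₀}

theorem mk_om1_le : #Om1 ≤ 𝔠 := by
  rw [Cardinal.mk_ord_toType]
  exact Cardinal.aleph_one_le_continuum

theorem mk_Tr : #Tr ≤ 𝔠 := by
  have h0 := mk_om1_le
  have hm : ∀ {a b : Cardinal.{0}}, a ≤ 𝔠 → b ≤ 𝔠 → a * b ≤ 𝔠 := fun ha hb =>
    (mul_le_mul' ha hb).trans (Cardinal.continuum_mul_self).le
  have hn : #ℕ ≤ 𝔠 := by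
    rw [Cardinal.mk_nat]
    exact Cardinal.aleph0_le_continuum
  have h1 : #(Om1 × ℕ × Om1) ≤ 𝔠 := by
    rw [← Cardinal.mul_def, ← Cardinal.mul_def]
    exact hm h0 (hm hn h0)
  have h2 : #(ℕ × Om1) ≤ 𝔠 := by
    rw [← Cardinal.mul_def]
    exact hm hn h0
  have h3 : #(Set ℕ) ≤ 𝔠 := by
    rw [Cardinal.mk_set, Cardinal.mk_nat]
    exact Cardinal.two_power_aleph0.le
  rw [Tr, ← Cardinal.mul_def, ← Cardinal.mul_def, ← Cardinal.mul_def]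
  exact hm h0 (hm (mk_countable_sets h1) (hm h3 (mk_countable_sets h2)))

/-- the trace of a condition on a countable set -/
def KC.trace (p : KC K) (c : ℕ → K) : Tr :=
  (p.δ, ⟨p.L, (Cardinal.le_aleph0_iff_set_countable).2 p.countable_L⟩, {n | c n ∈ p.D},
    ⟨{x | (c x.1, x.2) ∈ p.f}, (Cardinal.le_aleph0_iff_set_countable).2 (by
      have h2 : (⋃ n : ℕ, (fun η => (n, η)) '' Set.Iio p.δ).Countable :=
        Set.countable_iUnion fun n => (countable_Iio p.δ).image _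
      refine h2.mono ?_
      rintro ⟨n, η⟩ h
      exact Set.mem_iUnion.2 ⟨n, η, (p.hf _ _ h).2, rfl⟩)⟩)

/-- the family of arities -/
def Ar : Option (Tr × ℕ) → Type
  | none => Empty
  | some _ => ℕ

theorem mk_W : #(WType Ar) ≤ 𝔠 := by
  apply WType.cardinalMk_le_of_le'
  have h1 : ∀ a : Option (Tr × ℕ), (𝔠 : Cardinal.{0}) ^ Cardinal.lift.{0} #(Ar a) ≤ 𝔠 := by
    rintro (_ | a)
    · show 𝔠 ^ Cardinal.lift.{0} #Empty ≤ 𝔠
      simp only [Cardinal.mk_eq_zero, Cardinal.lift_zero, Cardinal.power_zero]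
      exact Cardinal.one_le_aleph0.trans Cardinal.aleph0_le_continuum
    · show 𝔠 ^ Cardinal.lift.{0} #ℕ ≤ 𝔠
      rw [Cardinal.mk_nat, Cardinal.lift_aleph0, Cardinal.continuum_power_aleph0]
  refine (Cardinal.sum_le_sum _ (fun _ => 𝔠) h1).trans ?_
  rw [Cardinal.sum_const, Cardinal.lift_id, Cardinal.lift_id]
  have h2 : #(Option (Tr × ℕ)) ≤ 𝔠 := by
    rw [Cardinal.mk_option, ← Cardinal.mul_def, Cardinal.mk_nat]
    calc #Tr * ℵ₀ + 1 ≤ 𝔠 * 𝔠 + 𝔠 := add_le_add (mul_le_mul' mk_Tr Cardinal.aleph0_le_continuum)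
          (Cardinal.one_le_aleph0.trans Cardinal.aleph0_le_continuum)
      _ = 𝔠 := by rw [Cardinal.continuum_mul_self, Cardinal.continuum_add_self]
  exact (mul_le_mul' h2 le_rfl).trans (Cardinal.continuum_mul_self).le

/-- Every set of conditions has a predense subset of size at most the continuum. -/
theorem KC.predense (φ : Set (KC K)) : ∃ A ⊆ φ, #A ≤ 𝔠 ∧ ∀ p ∈ φ, ∃ a ∈ A, ∃ r, r ≤ p ∧ r ≤ a := by
  rcases φ.eq_empty_or_nonempty with rfl | ⟨p0, hp0⟩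
  · exact ⟨∅, Set.empty_subset _, by simp, by simp⟩
  by_cases hK : IsEmpty K
  · -- then the traces decide everything
    let A : Set (KC K) := {p | ∃ t : Om1 × {t : Set (Om1 × ℕ × Om1) // #t ≤ ℵ₀},
      ∃ h : ∃ p ∈ φ, (p.δ, (⟨p.L, (Cardinal.le_aleph0_iff_set_countable).2 p.countable_L⟩ :
        {t : Set (Om1 × ℕ × Om1) // #t ≤ ℵ₀})) = t, p = h.choose}
    refine ⟨A, ?_, ?_, ?_⟩
    · rintro p ⟨t, h, rfl⟩
      exact h.choose_spec.1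
    · have h1 : A ⊆ Set.range fun t : Om1 × {t : Set (Om1 × ℕ × Om1) // #t ≤ ℵ₀} =>
          if h : ∃ p ∈ φ, (p.δ, (⟨p.L, (Cardinal.le_aleph0_iff_set_countable).2 p.countable_L⟩ :
            {t : Set (Om1 × ℕ × Om1) // #t ≤ ℵ₀})) = t then h.choose else p0 := by
        rintro p ⟨t, h, rfl⟩
        exact ⟨t, dif_pos h⟩
      refine (Cardinal.mk_le_mk_of_subset h1).trans (Cardinal.mk_range_le.trans ?_)
      have h2 : #(Om1 × {t : Set (Om1 × ℕ × Om1) // #t ≤ ℵ₀}) ≤ #Tr := by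
        refine Cardinal.mk_le_of_injective (f := fun t : Om1 ×
          {t : Set (Om1 × ℕ × Om1) // #t ≤ ℵ₀} => ((t.1, t.2, (∅ : Set ℕ),
            (⟨∅, by simp⟩ : {t : Set (ℕ × Om1) // #t ≤ ℵ₀})) : Tr)) ?_
        rintro ⟨a, b⟩ ⟨a', b'⟩ h
        simp only [Prod.mk.injEq] at h
        exact Prod.ext h.1 h.2.1
      exact h2.trans mk_Tr
    · intro p hp
      have h : ∃ p' ∈ φ, (p'.δ, (⟨p'.L, (Cardinal.le_aleph0_iff_set_countable).2 p'.countable_L⟩ :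
        {t : Set (Om1 × ℕ × Om1) // #t ≤ ℵ₀})) =
        (p.δ, ⟨p.L, (Cardinal.le_aleph0_iff_set_countable).2 p.countable_L⟩) := ⟨p, hp, rfl⟩
      refine ⟨h.choose, ⟨_, h, rfl⟩, ?_⟩
      have h1 := h.choose_spec.2
      exact KC.amalg _ _ (congrArg Prod.fst h1).symm (congrArg (fun x => x.2.1) h1).symm
        fun ξ => hK.elim ξ
  · rw [not_isEmpty_iff] at hK
    obtain ⟨k0⟩ := hK
    let rep : (ℕ → K) → Tr → KC K := fun c τ =>
      if h : ∃ p ∈ φ, p.trace c = τ then h.choose else p0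
    have hrep : ∀ c, ∀ p ∈ φ, rep c (p.trace c) ∈ φ ∧ (rep c (p.trace c)).trace c = p.trace c := by
      intro c p hp
      have h : ∃ p' ∈ φ, p'.trace c = p.trace c := ⟨p, hp, rfl⟩
      simp only [rep, dif_pos h]
      exact h.choose_spec
    have hrepφ : ∀ c τ, rep c τ ∈ φ := by
      intro c τ
      by_cases h : ∃ p ∈ φ, p.trace c = τ
      · simp only [rep, dif_pos h]
        exact h.choose_spec.1
      · simp only [rep, dif_neg h]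
        exact hp0
    have hen : ∀ p : KC K, ∃ en : ℕ → K, p.D ⊆ Set.range en := by
      intro p
      obtain ⟨en, hen⟩ := (p.hD.insert k0).exists_eq_range (Set.insert_nonempty _ _)
      exact ⟨en, (Set.subset_insert _ _).trans hen.le⟩
    choose en hen using hen
    let ev : WType Ar → K := fun w => WType.elim K (fun x : Σ a : Option (Tr × ℕ), Ar a → K =>
      match x with
      | ⟨none, _⟩ => k0
      | ⟨some a, c⟩ => en (rep c a.1) a.2) w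
    have hev0 : k0 ∈ Set.range ev := ⟨WType.mk none Empty.elim, rfl⟩
    have hev : ∀ (c : ℕ → K), (∀ n, c n ∈ Set.range ev) → ∀ τ, (rep c τ).D ⊆ Set.range ev := by
      intro c hc τ ξ hξ
      choose w hw using hc
      obtain ⟨n, rfl⟩ := hen _ hξ
      refine ⟨WType.mk (some (τ, n)) w, ?_⟩
      have h1 : (fun n => ev (w n)) = c := funext hw
      show en (rep (fun n => ev (w n)) τ) n = en (rep c τ) n
      rw [h1]
    have hS : #(Set.range ev) ≤ 𝔠 := Cardinal.mk_range_le.trans mk_W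
    refine ⟨Set.range fun x : (ℕ → Set.range ev) × Tr => rep (fun n => (x.1 n).1) x.2, ?_, ?_, ?_⟩
    · rintro _ ⟨x, rfl⟩
      exact hrepφ _ _
    · refine Cardinal.mk_range_le.trans ?_
      rw [← Cardinal.mul_def, ← Cardinal.power_def, Cardinal.mk_nat]
      calc #(Set.range ev) ^ ℵ₀ * #Tr ≤ 𝔠 ^ ℵ₀ * 𝔠 :=
            mul_le_mul' (Cardinal.power_le_power_right hS) mk_Tr
        _ = 𝔠 := by rw [Cardinal.continuum_power_aleph0, Cardinal.continuum_mul_self]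
    · intro p hp
      obtain ⟨c, hc⟩ : ∃ c : ℕ → K, insert k0 (p.D ∩ Set.range ev) = Set.range c :=
        ((p.hD.mono Set.inter_subset_left).insert k0).exists_eq_range (Set.insert_nonempty _ _)
      have hcS : ∀ n, c n ∈ Set.range ev := by
        intro n
        have h1 : c n ∈ insert k0 (p.D ∩ Set.range ev) := by
          rw [hc]
          exact ⟨n, rfl⟩
        rcases h1 with h2 | h2
        · rw [h2]
          exact hev0
        · exact h2.2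
      obtain ⟨h1, h2⟩ := hrep c p hp
      refine ⟨rep c (p.trace c), ⟨(fun n => ⟨c n, hcS n⟩, p.trace c), rfl⟩, ?_⟩
      simp only [KC.trace, Prod.mk.injEq, Subtype.mk.injEq] at h2
      refine KC.amalg _ _ h2.1.symm h2.2.1.symm fun ξ hξ hξ' η => ?_
      have h3 : ξ ∈ Set.range c := by
        rw [← hc]
        exact Set.mem_insert_of_mem _ ⟨hξ, hev c hcS _ hξ'⟩
      obtain ⟨n, rfl⟩ := h3
      have h4 : (n, η) ∈ {x : ℕ × Om1 | (c x.1, x.2) ∈ (rep c (p.trace c)).f} ↔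
          (n, η) ∈ {x : ℕ × Om1 | (c x.1, x.2) ∈ p.f} := by
        have := h2.2.2.2
        exact (Set.ext_iff.1 this (n, η))
      exact h4.symm

end Pool.Agent.D0H62.MK
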