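import Pool.Agent.D0H62.MK.Kur

/-!
# Martin's axiom together with a Kurepa family can be forced
-/

set_option autoImplicit false

namespace Pool.Agent.D0H62.MK

open Classical Cardinal Pool.Agent.Helper669.Forcing Pool.Agent.W684.FM

/-- There are countable families `{S α n : n < ω}` of subsets of `α`, for `α < ω₁`, such that the
sets all of whose initial segments belong to these families cannot be enumerated by `ω₁`. -/
def KurepaFor : Prop :=
  ∃ S : Om1 → ℕ → Om1 → Prop, ∀ E : Om1 → Om1 → Prop, ∃ X : Om1 → Prop,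
    (∀ α, ∃ n, ∀ ξ, ξ < α → (X ξ ↔ S α n ξ)) ∧ ∀ y, ∃ ξ, ¬ (X ξ ↔ E y ξ)

section

variable {P : Type} [Preorder P]

/-- `φ` if and only if `ψ` -/
def fiff (φ ψ : Set P) : Set P := fand (fimp φ ψ) (fimp ψ φ)

theorem down_fiff (φ ψ : Set P) : Down (fiff φ ψ) := down_fand (down_fimp _ _) (down_fimp _ _)

variable (P) in
/-- The sentence `KurepaFor` of the forcing language. -/
def KurepaHolds : Set P :=
  fex fun S : Om1 → ℕ → Om1 → Set P => fall fun E : Om1 → Om1 → Set P =>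
    fex fun X : Om1 → Set P =>
      fand (fall fun α => fex fun n => fall fun ξ => fimp (fground (ξ < α))
          (fiff (meets (X ξ)) (meets (S α n ξ))))
        (fall fun y => fex fun ξ => fnot (fiff (meets (X ξ)) (meets (E y ξ))))

end

variable {K X W I : Type} [LinearOrder W] [WellFoundedLT W]

/-- the name for the member of the family with index `ξ` -/
def XN (ξ : K) (η : Om1) : Set (PQ (KC K) X W I) :=
  {u | ξ ∈ u.1.1.D ∧ η < u.1.1.δ ∧ (ξ, η) ∈ u.1.1.f}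

/-- the name for the countable families -/
def SN (α : Om1) (n : ℕ) (η : Om1) : Set (PQ (KC K) X W I) :=
  {u | α ≤ u.1.1.δ ∧ η < α ∧ (α, n, η) ∈ u.1.1.L}

theorem down_XN (ξ : K) (η : Om1) : Down (XN ξ η : Set (PQ (KC K) X W I)) := by
  rintro u ⟨h1, h2, h3⟩ v hv
  have h4 := KC.le_def.1 hv.1
  exact ⟨h4.2.2.1 h1, h2.trans_le h4.1, (h4.2.2.2 ξ h1 η h2).2 h3⟩

theorem down_SN (α : Om1) (n : ℕ) (η : Om1) : Down (SN α n η : Set (PQ (KC K) X W I)) := by
  rintro u ⟨h1, h2, h3⟩ v hv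
  have h4 := KC.le_def.1 hv.1
  exact ⟨h1.trans h4.1, h2, (h4.2.1 α h1 n η h2).2 h3⟩

theorem forced_cap (ξ : K) (u : PQ (KC K) X W I) :
    u ∈ fall fun α => fex fun n => fall fun η => fimp (fground (η < α))
          (fiff (meets (XN ξ η : Set (PQ (KC K) X W I))) (meets (SN α n η))) := by
  intro α
  rw [mem_fex]
  intro v _
  obtain ⟨q', hq', hα, hξ⟩ := v.1.1.extend_to ξ α
  obtain ⟨n, hn⟩ := q'.cap ξ hξ α hα
  refine ⟨up v q' hq', up_le _ _ _, n, fun η => ?_⟩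
  rw [mem_fimp]
  intro w hw hη
  have hη' : η < α := hη
  have hwq : w.1.1 ≤ q' := hw.1
  have hwq' := KC.le_def.1 hwq
  refine ⟨w, le_rfl, ?_, ?_⟩
  · rw [mem_fimp]
    intro r hr h1
    obtain ⟨s, hs, h2⟩ := exists_of_meets (down_XN ξ η) h1
    have hsq : s.1.1 ≤ q' := le_trans (le_trans hs.1 hr.1) hwq
    have hsq' := KC.le_def.1 hsq
    refine ⟨s, hs, meets_of_mem ⟨hα.trans hsq'.1, hη', ?_⟩⟩
    rw [hsq'.2.1 α hα n η hη', ← hn η hη', ← hsq'.2.2.2 ξ hξ η (hη'.trans_le hα)]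
    exact h2.2.2
  · rw [mem_fimp]
    intro r hr h1
    obtain ⟨s, hs, h2⟩ := exists_of_meets (down_SN α n η) h1
    have hsq : s.1.1 ≤ q' := le_trans (le_trans hs.1 hr.1) hwq
    have hsq' := KC.le_def.1 hsq
    refine ⟨s, hs, meets_of_mem ⟨hsq'.2.2.1 hξ, (hη'.trans_le hα).trans_le hsq'.1, ?_⟩⟩
    rw [hsq'.2.2.2 ξ hξ η (hη'.trans_le hα), hn η hη', ← hsq'.2.1 α hα n η hη']
    exact h2.2.2

/-- The iteration forces that there is a Kurepa family. -/
theorem kurepaHolds (hK : 𝔠 < #K) (p : PQ (KC K) X W I) :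
    p ∈ KurepaHolds (PQ (KC K) X W I) := by
  refine mem_fex_of_mem (fun α n η => SN α n η) (down_fall fun _ => down_fex _) ?_
  intro E
  rw [mem_fex]
  intro u _
  by_contra hcon
  push Not at hcon
  -- every member of the family is enumerated
  have h1 : ∀ ξ : K, ∃ y : Om1, ∃ v ≤ u, ∀ w ≤ v, ∀ η, ∃ w' ≤ w,
      w' ∈ fiff (meets (XN ξ η)) (meets (E y η)) := by
    intro ξ
    have h2 := hcon u le_rfl (fun η => XN ξ η)
    have h3 : u ∉ fall fun y => fex fun η => fnot (fiff (meets (XN ξ η)) (meets (E y η))) :=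
      fun h => h2 ⟨forced_cap ξ u, h⟩
    have h4 : ∃ y, u ∉ fex fun η => fnot (fiff (meets (XN ξ η)) (meets (E y η))) := by
      by_contra h5
      push Not at h5
      exact h3 h5
    obtain ⟨y, h4⟩ := h4
    rw [mem_fex] at h4
    push Not at h4
    obtain ⟨v, hv, h5⟩ := h4
    refine ⟨y, v, hv, fun w hw η => ?_⟩
    have h6 := h5 w hw η
    simp only [fnot, Set.mem_ofPred_eq, not_forall, not_not] at h6
    obtain ⟨w', hw', h7⟩ := h6
    exact ⟨w', hw', h7⟩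
  choose y v hv hvE using h1
  have hinc : ∀ ξ ξ', ξ ≠ ξ' → y ξ = y ξ' → ¬ ∃ w, w ≤ v ξ ∧ w ≤ v ξ' := by
    rintro ξ ξ' hne hy ⟨w, hw, hw'⟩
    obtain ⟨q', hq', hξ, hξ', η, hη, hf, hf'⟩ := w.1.1.extend_ne hne
    obtain ⟨w2, hw2, h2⟩ := hvE ξ (up w q' hq') ((up_le _ _ _).trans hw) η
    obtain ⟨w3, hw3, h3⟩ := hvE ξ' w2 (hw2.trans ((up_le _ _ _).trans hw')) η
    have hw3q : w3.1.1 ≤ q' := le_trans hw3.1 hw2.1
    have h4 : w3 ∈ XN ξ η := ⟨(KC.le_def.1 hw3q).2.2.1 hξ, hη.trans_le (KC.le_def.1 hw3q).1,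
      ((KC.le_def.1 hw3q).2.2.2 ξ hξ η hη).2 hf⟩
    obtain ⟨w4, hw4, h5⟩ := mem_fimp.1 (down_fiff _ _ _ h2 _ hw3).1 w3 le_rfl (meets_of_mem h4)
    rw [hy] at h5
    obtain ⟨w5, hw5, h6⟩ := mem_fimp.1 h3.2 w4 hw4 h5
    obtain ⟨w6, hw6, h7⟩ := exists_of_meets (down_XN ξ' η) h6
    have hw6q : w6.1.1 ≤ q' := le_trans (le_trans (le_trans hw6.1 hw5.1) hw4.1) hw3q
    exact hf' (((KC.le_def.1 hw6q).2.2.2 ξ' hξ' η hη).1 h7.2.2)
  -- the same place for many members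
  have h2 : ∃ b, 𝔠 < #{ξ : K // y ξ = b} := by
    by_contra hno
    push Not at hno
    have h3 : #K = Cardinal.sum fun b : Om1 => #{ξ : K // y ξ = b} := by
      rw [← mk_sigma]
      exact (Equiv.sigmaFiberEquiv y).symm.cardinal_eq
    have h4 : #K ≤ 𝔠 := by
      rw [h3]
      refine (Cardinal.sum_le_sum _ (fun _ => 𝔠) hno).trans ?_
      rw [Cardinal.sum_const, Cardinal.lift_id, Cardinal.lift_id]
      exact (mul_le_mul' mk_om1_le le_rfl).trans (Cardinal.continuum_mul_self).le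
    exact absurd h4 (not_le.2 hK)
  obtain ⟨b, hb⟩ := h2
  -- conditions which are compatible with the first components of only countably many `v ξ`
  let 𝒟 : Set (KC K) := {q | ∃ J : Set {ξ : K // y ξ = b}, J.Countable ∧
    ∀ ξ : {ξ : K // y ξ = b}, (∃ r, r ≤ q ∧ r ≤ (v ξ.1).1.1) → ξ ∈ J}
  have hdense : ∀ q₀ : KC K, ∃ q ≤ q₀, q ∈ 𝒟 := by
    intro q₀
    obtain ⟨q, hq, C, hC1, hC2, hC3⟩ := rp_PQ (X := X) (W := W) (I := I) KC.closed
      {w | ∃ ξ : {ξ : K // y ξ = b}, w ≤ v ξ.1} (by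
        rintro w ⟨ξ, h⟩ w' hw'
        exact ⟨ξ, hw'.trans h⟩) q₀
    have hCξ : ∀ s ∈ C, ∃ ξ : {ξ : K // y ξ = b}, s ≤ v ξ.1 := fun s hs => (hC2 s hs).1
    have : Nonempty {ξ : K // y ξ = b} := by
      rw [← Cardinal.mk_ne_zero_iff]
      intro h0
      rw [h0] at hb
      exact absurd hb (not_lt.2 (zero_le (a := 𝔠)))
    choose! g hg using hCξ
    refine ⟨q, hq, g '' C, hC1.image g, fun ξ hξ => ?_⟩
    obtain ⟨r, hr1, hr2⟩ := hξ
    obtain ⟨s, hs, w, hw1, hw2⟩ := hC3 (up (v ξ.1) r hr2) ⟨ξ, up_le _ _ _⟩ hr1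
    refine ⟨s, hs, ?_⟩
    by_contra hne
    refine hinc (g s).1 ξ.1 (fun h => hne (Subtype.ext h)) ((g s).2.trans ξ.2.symm)
      ⟨w, hw2.trans (hg s hs), hw1.trans (up_le _ _ _)⟩
  obtain ⟨A, hA1, hA2, hA3⟩ := KC.predense 𝒟
  have hJ : ∀ a ∈ A, ∃ J : Set {ξ : K // y ξ = b}, J.Countable ∧
    ∀ ξ : {ξ : K // y ξ = b}, (∃ r, r ≤ a ∧ r ≤ (v ξ.1).1.1) → ξ ∈ J := fun a ha => hA1 ha
  choose! J hJ1 hJ2 using hJ
  have h3 : (Set.univ : Set {ξ : K // y ξ = b}) ⊆ ⋃ a ∈ A, J a := by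
    intro ξ _
    obtain ⟨q, hq, hqD⟩ := hdense (v ξ.1).1.1
    obtain ⟨a, ha, r, hr1, hr2⟩ := hA3 q hqD
    exact Set.mem_iUnion₂.2 ⟨a, ha, hJ2 a ha ξ ⟨r, hr2, hr1.trans hq⟩⟩
  have h4 := Cardinal.mk_le_mk_of_subset h3
  rw [Cardinal.mk_univ] at h4
  have h5 : #(⋃ a ∈ A, J a : Set {ξ : K // y ξ = b}) ≤ 𝔠 := by
    refine (Cardinal.mk_biUnion_le _ _).trans ?_
    calc #A * _ ≤ 𝔠 * 𝔠 := by
          apply mul_le_mul' hA2
          apply ciSup_le'
          intro a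
          exact (Cardinal.le_aleph0_iff_set_countable.2 (hJ1 a.1 a.2)).trans
            Cardinal.aleph0_le_continuum
      _ = 𝔠 := Cardinal.continuum_mul_self
  exact absurd (h4.trans h5) (not_le.2 hb)

/-- **Martin's axiom for `ℵ₁` dense sets together with a Kurepa family can be forced** (with
preservation of `ω₁`), over every ground model. -/
theorem exists_forcing : ∃ (P : Type) (_ : Preorder P), Nonempty P ∧ ∀ p : P,
    p ∈ OmegaOnePreserved P ∧ p ∈ MartinHolds P Om1 ∧ p ∈ KurepaHolds P := by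
  let K : Type := (Order.succ 𝔠 : Cardinal.{0}).out
  have hK : 𝔠 < #K := by
    rw [Cardinal.mk_out]
    exact Order.lt_succ 𝔠
  let I : Type := (KC K × ℕ) ⊕ Om1
  have hI1 : #(KC K × ℕ) ≤ #I := Cardinal.mk_le_of_injective Sum.inl_injective
  have hI2 : #Om1 ≤ #I := Cardinal.mk_le_of_injective Sum.inr_injective
  have hI : Infinite I := Infinite.of_injective (Sum.inr : Om1 → I) Sum.inr_injective
  let W : Type := (Order.succ #I).ord.ToType
  have hW : Bdd I W := bdd_succ I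
  have hne : Nonempty (KC K) := by
    obtain ⟨q, _⟩ := KC.build (K := K) ∅ ∅ ∅ Set.countable_empty (fun _ _ => False)
      (Classical.arbitrary Om1) (by simp) (by simp) (by simp)
    exact ⟨q⟩
  refine ⟨PQ (KC K) Om1 W I, inferInstance, ⟨mkPQ hne.some ∅ (valid_empty _ _)⟩, fun p =>
    ⟨omegaOnePreserved KC.closed p, martinHolds KC.closed hI1 hI2 hW p, kurepaHolds hK p⟩⟩

end Pool.Agent.D0H62.MK
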