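import Pool.Agent.D0H62.MK.Stages
import Pool.Agent.W684.FM.Ambient

/-!
# Names for sequences of length `ω₁`
-/

set_option autoImplicit false

namespace Pool.Agent.D0H62.MK

open Classical Cardinal Pool.Agent.Helper669.Forcing Pool.Agent.W684.FM

theorem countable_Iio (a : Om1) : (Set.Iio a).Countable := by
  have h3 := Cardinal.mk_Iio_toType_ord_lt a
  rw [← Cardinal.le_aleph0_iff_set_countable]
  have : #(Set.Iio a) < Order.succ ℵ₀ := by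
    rw [Cardinal.succ_aleph0]
    exact h3
  exact Order.lt_succ_iff.1 this

theorem bound_countable {Z : Type*} {C : Set Z} (hC : C.Countable) (a : Z → Om1) :
    ∃ b, ∀ s ∈ C, a s ≤ b := by
  rcases C.eq_empty_or_nonempty with rfl | hne
  · exact ⟨Classical.arbitrary _, by simp⟩
  · obtain ⟨g, rfl⟩ := hC.exists_eq_range hne
    obtain ⟨b, hb⟩ := exists_bound fun n => a (g n)
    refine ⟨b, ?_⟩
    rintro _ ⟨n, rfl⟩
    exact hb n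

section Mix

variable {Q Y : Type} [Preorder Q]

/-- `q` forces that `g η` is the first possible member at place `η`, for the given members at
the earlier places -/
def Cor (ψ : Q → Set Y) (inc : Q → Y → Y → Prop) (g : Om1 → Y) (q : Q) (η : Om1) : Prop :=
  g η ∈ ψ q ∧ (∀ ζ < η, inc q (g η) (g ζ)) ∧
    ∀ y, WellOrderingRel y (g η) → ∀ q' ≤ q, ¬ (y ∈ ψ q' ∧ ∀ ζ < η, inc q' y (g ζ))

variable {ψ : Q → Set Y} {inc : Q → Y → Y → Prop}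

theorem Cor.le (hψ : ∀ q r, r ≤ q → ψ q ⊆ ψ r) (hinc : ∀ q r y y', r ≤ q → inc q y y' → inc r y y')
    {g : Om1 → Y} {q r : Q} {η : Om1} (h : Cor ψ inc g q η) (hr : r ≤ q) : Cor ψ inc g r η :=
  ⟨hψ _ _ hr h.1, fun ζ hζ => hinc _ _ _ _ hr (h.2.1 ζ hζ), fun y hy q' hq' =>
    h.2.2 y hy q' (hq'.trans hr)⟩

theorem Cor.congr {g g' : Om1 → Y} {q : Q} {η : Om1} (h : Cor ψ inc g q η)
    (he : ∀ ζ ≤ η, g ζ = g' ζ) : Cor ψ inc g' q η := by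
  obtain ⟨h1, h2, h3⟩ := h
  refine ⟨?_, fun ζ hζ => ?_, fun y hy q' hq' hcon => ?_⟩
  · rw [← he η le_rfl]
    exact h1
  · rw [← he η le_rfl, ← he ζ hζ.le]
    exact h2 ζ hζ
  · rw [← he η le_rfl] at hy
    refine h3 y hy q' hq' ⟨hcon.1, fun ζ hζ => ?_⟩
    rw [he ζ hζ.le]
    exact hcon.2 ζ hζ

theorem Cor.unique {g g' : Om1 → Y} {q : Q} {ξ : Om1} (h : ∀ η ≤ ξ, Cor ψ inc g q η)
    (h' : ∀ η ≤ ξ, Cor ψ inc g' q η) : ∀ η ≤ ξ, g η = g' η := by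
  intro η
  induction η using WellFoundedLT.induction with
  | ind η ih =>
    intro hη
    rcases trichotomous_of WellOrderingRel (g η) (g' η) with h1 | h1 | h1
    · exfalso
      refine (h' η hη).2.2 _ h1 q le_rfl ⟨(h η hη).1, fun ζ hζ => ?_⟩
      rw [← ih ζ hζ (hζ.le.trans hη)]
      exact (h η hη).2.1 ζ hζ
    · exact h1
    · exfalso
      refine (h η hη).2.2 _ h1 q le_rfl ⟨(h' η hη).1, fun ζ hζ => ?_⟩
      rw [ih ζ hζ (hζ.le.trans hη)]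
      exact (h' η hη).2.1 ζ hζ

theorem exists_cor (hQ : SC Q) (hψ : ∀ q r, r ≤ q → ψ q ⊆ ψ r)
    (hinc : ∀ q r y y', r ≤ q → inc q y y' → inc r y y') {q₀ : Q}
    (H : ∀ q ≤ q₀, ∀ C : Set Y, C.Countable → C ⊆ ψ q → ∃ r ≤ q, ∃ y ∈ ψ r, ∀ s ∈ C, inc r y s)
    (ξ : Om1) : ∀ q ≤ q₀, ∃ q' ≤ q, ∃ g : Om1 → Y, ∀ η ≤ ξ, Cor ψ inc g q' η := by
  induction ξ using WellFoundedLT.induction with
  | ind ξ ih =>
    intro q hq
    obtain ⟨_, _, y₀, _, _⟩ := H q₀ le_rfl ∅ Set.countable_empty (Set.empty_subset _)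
    have hcount : Countable (Set.Iio ξ) := (countable_Iio ξ).to_subtype
    obtain ⟨q1, hq1, hmeet⟩ := hQ.meet (q₀ := q)
      (fun η : Set.Iio ξ => {q' | ∃ g : Om1 → Y, ∀ ζ ≤ η.1, Cor ψ inc g q' ζ})
      (by
        rintro η q1 ⟨g, hg⟩ q2 h12
        exact ⟨g, fun ζ hζ => (hg ζ hζ).le hψ hinc h12⟩)
      (fun η r hr => by
        obtain ⟨r', hr', g, hg⟩ := ih η.1 η.2 r (hr.trans hq)
        exact ⟨r', hr', g, hg⟩)
    choose G hG using hmeet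
    let g : Om1 → Y := fun ζ => if h : ζ < ξ then G ⟨ζ, h⟩ ζ else y₀
    have hgG : ∀ η (hη : η < ξ), ∀ ζ ≤ η, G ⟨η, hη⟩ ζ = g ζ := by
      intro η hη ζ hζ
      have hζ' : ζ < ξ := hζ.trans_lt hη
      simp only [g, dif_pos hζ']
      exact Cor.unique (ξ := ζ) (fun θ hθ => hG ⟨η, hη⟩ θ (hθ.trans hζ)) (hG ⟨ζ, hζ'⟩) ζ le_rfl
    have hg : ∀ η < ξ, Cor ψ inc g q1 η := fun η hη => (hG ⟨η, hη⟩ η le_rfl).congr (hgG η hη)
    let B : Set Y := {y | ∃ r ≤ q1, y ∈ ψ r ∧ ∀ ζ < ξ, inc r y (g ζ)}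
    have hB : B.Nonempty := by
      obtain ⟨r, hr, y, hy, h1⟩ := H q1 (hq1.trans hq) (g '' Set.Iio ξ)
        ((countable_Iio ξ).image g) (by
          rintro _ ⟨ζ, hζ, rfl⟩
          exact (hg ζ hζ).1)
      exact ⟨y, r, hr, hy, fun ζ hζ => h1 _ ⟨ζ, hζ, rfl⟩⟩
    have hwf : WellFounded (WellOrderingRel : Y → Y → Prop) := WellOrderingRel.isWellOrder.wf
    obtain ⟨r, hr, h1, h2⟩ := hwf.min_mem B hB
    let g' : Om1 → Y := fun ζ => if ζ < ξ then g ζ else hwf.min B hB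
    have hg1 : ∀ ζ < ξ, g' ζ = g ζ := fun ζ hζ => if_pos hζ
    have hg2 : g' ξ = hwf.min B hB := if_neg (lt_irrefl ξ)
    refine ⟨r, hr.trans hq1, g', fun η hη => ?_⟩
    rcases hη.lt_or_eq with h3 | rfl
    · exact ((hg η h3).le hψ hinc hr).congr fun ζ hζ => (hg1 ζ (hζ.trans_lt h3)).symm
    · refine ⟨?_, fun ζ hζ => ?_, fun y hy q' hq' hcon => ?_⟩
      · rw [hg2]
        exact h1
      · rw [hg2, hg1 ζ hζ]
        exact h2 ζ hζ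
      · rw [hg2] at hy
        refine hwf.not_lt_min B (x := y) ⟨q', hq'.trans hr, hcon.1, fun ζ hζ => ?_⟩ hy
        have := hcon.2 ζ hζ
        rwa [hg1 ζ hζ] at this

/-- A name for a sequence of length `ω₁`. -/
theorem exists_seq (hQ : SC Q) (hψ : ∀ q r, r ≤ q → ψ q ⊆ ψ r)
    (hinc : ∀ q r y y', r ≤ q → inc q y y' → inc r y y') {q₀ : Q}
    (H : ∀ q ≤ q₀, ∀ C : Set Y, C.Countable → C ⊆ ψ q → ∃ r ≤ q, ∃ y ∈ ψ r, ∀ s ∈ C, inc r y s) :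
    ∃ Dec : Om1 → Y → Set Q, (∀ ξ y, ∀ q ∈ Dec ξ y, ∀ r ≤ q, r ∈ Dec ξ y) ∧
      (∀ ξ y y' q, q ∈ Dec ξ y → q ∈ Dec ξ y' → y = y') ∧
      (∀ ξ, ∀ q ≤ q₀, ∃ q' ≤ q, ∃ y, q' ∈ Dec ξ y) ∧
      (∀ ξ y, ∀ q ∈ Dec ξ y, y ∈ ψ q) ∧
      ∀ ξ η y y' q, η < ξ → q ∈ Dec ξ y → q ∈ Dec η y' → inc q y y' := by
  refine ⟨fun ξ y => {q | ∃ g : Om1 → Y, (∀ η ≤ ξ, Cor ψ inc g q η) ∧ g ξ = y}, ?_, ?_, ?_, ?_, ?_⟩
  · rintro ξ y q ⟨g, hg, hy⟩ r hr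
    exact ⟨g, fun η hη => (hg η hη).le hψ hinc hr, hy⟩
  · rintro ξ y y' q ⟨g, hg, rfl⟩ ⟨g', hg', rfl⟩
    exact Cor.unique hg hg' ξ le_rfl
  · intro ξ q hq
    obtain ⟨q', hq', g, hg⟩ := exists_cor hQ hψ hinc H ξ q hq
    exact ⟨q', hq', g ξ, g, hg, rfl⟩
  · rintro ξ y q ⟨g, hg, rfl⟩
    exact (hg ξ le_rfl).1
  · rintro ξ η y y' q hη ⟨g, hg, rfl⟩ ⟨g', hg', rfl⟩
    have h1 := (hg ξ le_rfl).2.1 η hη
    rwa [Cor.unique (ξ := η) (fun ζ hζ => hg ζ (hζ.trans hη.le)) hg' η le_rfl] at h1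

end Mix

end Pool.Agent.D0H62.MK
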