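import Pool.Agent.H995R3.Kurepa.Def

/-!
# From a Kurepa family to a regular Kurepa tree on `ω₁`
-/

set_option autoImplicit false

namespace Pool.Agent.D0H62.MK

open Set Cardinal Pool.Agent.H995R3.Kurepa

section

variable {W : Type} [LinearOrder W]

/-- There are countable families `{S α n : n < ω}` of subsets of `{ξ : ξ < α}` such that the
sets all of whose initial segments belong to these families cannot be enumerated by `W`. -/
def KurOn (W : Type) [LinearOrder W] : Prop :=
  ∃ S : W → ℕ → W → Prop, ∀ E : W → W → Prop, ∃ X : W → Prop,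
    (∀ α, ∃ n, ∀ ξ, ξ < α → (X ξ ↔ S α n ξ)) ∧ ∀ y, ∃ ξ, ¬ (X ξ ↔ E y ξ)

/-- the family -/
def Fam (S : W → ℕ → W → Prop) : Set (Set W) := {X | ∀ α, ∃ n, ∀ ξ < α, (ξ ∈ X ↔ S α n ξ)}

/-- the nodes of the tree: finite modifications of the initial segments of the members -/
abbrev Nd (S : W → ℕ → W → Prop) : Type :=
  {x : W × Set W // x.2 ⊆ Iio x.1 ∧ ∃ X ∈ Fam S, (symmDiff x.2 (X ∩ Iio x.1)).Finite}

/-- the tree order -/
def nlt {S : W → ℕ → W → Prop} (x y : Nd S) : Prop := x.1.1 < y.1.1 ∧ y.1.2 ∩ Iio x.1.1 = x.1.2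

variable {S : W → ℕ → W → Prop}

theorem nlt_trans {x y z : Nd S} (h1 : nlt x y) (h2 : nlt y z) : nlt x z := by
  refine ⟨h1.1.trans h2.1, ?_⟩
  rw [← h1.2, ← h2.2, inter_assoc]
  congr 1
  ext ξ
  simp only [mem_inter_iff, mem_Iio]
  exact ⟨fun h => ⟨h.trans h1.1, h⟩, fun h => h.2⟩

theorem nlt_lin {x y z : Nd S} (h1 : nlt x z) (h2 : nlt y z) : x = y ∨ nlt x y ∨ nlt y x := by
  have key : ∀ {x y : Nd S}, nlt x z → nlt y z → x.1.1 < y.1.1 → nlt x y := by
    intro x y h1 h2 h
    refine ⟨h, ?_⟩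
    rw [← h1.2, ← h2.2, inter_assoc]
    congr 1
    ext ξ
    simp only [mem_inter_iff, mem_Iio]
    exact ⟨fun h' => h'.2, fun h' => ⟨h'.trans h, h'⟩⟩
  rcases lt_trichotomy x.1.1 y.1.1 with h | h | h
  · exact Or.inr (Or.inl (key h1 h2 h))
  · left
    apply Subtype.ext
    refine Prod.ext h ?_
    rw [← h1.2, ← h2.2, h]
  · exact Or.inr (Or.inr (key h2 h1 h))

/-- restriction of a node -/
def cut (x : Nd S) (α : W) (hα : α ≤ x.1.1) : Nd S :=
  ⟨(α, x.1.2 ∩ Iio α), inter_subset_right, by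
    obtain ⟨X, hX, hfin⟩ := x.2.2
    refine ⟨X, hX, hfin.subset ?_⟩
    rintro ξ (⟨⟨h1, h2⟩, h3⟩ | ⟨⟨h1, h2⟩, h3⟩)
    · exact Or.inl ⟨h1, fun h => h3 ⟨h.1, h2⟩⟩
    · exact Or.inr ⟨⟨h1, lt_of_lt_of_le h2 hα⟩, fun h => h3 ⟨h, h2⟩⟩⟩

/-- initial segments of the members of the family -/
def seg {X : Set W} (hX : X ∈ Fam S) (α : W) : Nd S :=
  ⟨(α, X ∩ Iio α), inter_subset_right, X, hX, by simp⟩

theorem countable_level (hL : Like W) (α : W) : {x : Nd S | x.1.1 = α}.Countable := by
  have h1 : (⋃ n : ℕ, (fun F : Set W => symmDiff F ({ξ | S α n ξ} ∩ Iio α)) ''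
      {F | F.Finite ∧ F ⊆ Iio α}).Countable :=
    Set.countable_iUnion fun n => (Set.countable_ofPred_finite_subset (hL.cnt α)).image _
  refine Set.countable_of_injective_of_countable_image (f := fun x : Nd S => x.1.2) ?_ (h1.mono ?_)
  · rintro x hx y hy hxy
    apply Subtype.ext
    exact Prod.ext (Eq.trans hx (Eq.symm hy)) hxy
  · rintro _ ⟨x, rfl, rfl⟩
    obtain ⟨hsub, X, hX, hfin⟩ := x.2
    obtain ⟨n, hn⟩ := hX x.1.1
    have h2 : X ∩ Iio x.1.1 = {ξ | S x.1.1 n ξ} ∩ Iio x.1.1 := by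
      ext ξ
      constructor
      · rintro ⟨h3, h4⟩
        exact ⟨(hn ξ h4).1 h3, h4⟩
      · rintro ⟨h3, h4⟩
        exact ⟨(hn ξ h4).2 h3, h4⟩
    refine mem_iUnion.2 ⟨n, symmDiff x.1.2 (X ∩ Iio x.1.1), ⟨hfin, ?_⟩, ?_⟩
    · rintro ξ (⟨h3, _⟩ | ⟨⟨_, h3⟩, _⟩)
      · exact hsub h3
      · exact h3
    · show symmDiff (symmDiff x.1.2 (X ∩ Iio x.1.1)) ({ξ | S x.1.1 n ξ} ∩ Iio x.1.1) = x.1.2
      rw [← h2]
      exact symmDiff_symmDiff_cancel_right _ _

theorem mk_Nd (hL : Like W) (hW : #W = aleph 1) {X : Set W} (hX : X ∈ Fam S) :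
    #(Nd S) = #W := by
  apply le_antisymm
  · have h1 : (univ : Set (Nd S)) ⊆ ⋃ α : W, {x : Nd S | x.1.1 = α} := fun x _ =>
      mem_iUnion.2 ⟨x.1.1, rfl⟩
    rw [← Cardinal.mk_univ]
    refine (Cardinal.mk_le_mk_of_subset h1).trans ((Cardinal.mk_iUnion_le _).trans ?_)
    calc #W * _ ≤ #W * ℵ₀ := by
          apply mul_le_mul' le_rfl
          apply ciSup_le'
          intro α
          exact Cardinal.le_aleph0_iff_set_countable.2 (countable_level hL α)
      _ = #W := by
          rw [hW]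
          exact Cardinal.mul_eq_left (Cardinal.aleph0_le_aleph 1) (Cardinal.aleph0_le_aleph 1)
            Cardinal.aleph0_ne_zero
  · refine Cardinal.mk_le_of_injective (f := fun α => seg hX α) ?_
    intro α β h
    exact congrArg (fun x : Nd S => x.1.1) h

variable [WellFoundedLT W]

/-- A Kurepa family gives a regular Kurepa tree. -/
theorem exists_kurepa (hL : Like W) (hW : #W = aleph 1) (h : KurOn W) :
    ∃ R : W → W → Prop, IsKurepa R ∧ IsRegular R := by
  classical
  obtain ⟨S, hS⟩ := h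
  have hFE : ∀ E : W → Set W, ∃ X ∈ Fam S, ∀ y, X ≠ E y := by
    intro E
    obtain ⟨X, h1, h2⟩ := hS fun y ξ => ξ ∈ E y
    refine ⟨{ξ | X ξ}, h1, fun y hy => ?_⟩
    obtain ⟨ξ, hξ⟩ := h2 y
    apply hξ
    rw [← hy]
    exact Iff.rfl
  obtain ⟨X0, hX0, _⟩ := hFE fun _ => ∅
  have hcard : #(Nd S) = #W := mk_Nd hL hW hX0
  obtain ⟨e⟩ := Cardinal.eq.1 hcard
  let R : W → W → Prop := fun a b => nlt (e.symm a) (e.symm b)
  let r : W → W := fun a => (e.symm a).1.1
  have hRe : ∀ x y : Nd S, R (e x) (e y) ↔ nlt x y := by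
    intro x y
    show nlt (e.symm (e x)) (e.symm (e y)) ↔ _
    rw [e.symm_apply_apply, e.symm_apply_apply]
  have hre : ∀ x : Nd S, r (e x) = x.1.1 := by
    intro x
    show (e.symm (e x)).1.1 = _
    rw [e.symm_apply_apply]
  have hto : TO R := by
    refine ⟨fun a h => lt_irrefl _ h.1, fun a b c h1 h2 => nlt_trans h1 h2, ?_, ?_⟩
    · intro a a' b h1 h2
      rcases nlt_lin h1 h2 with h3 | h3 | h3
      · exact Or.inl (e.symm.injective h3)
      · exact Or.inr (Or.inl h3)
      · exact Or.inr (Or.inr h3)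
    · exact Subrelation.wf (fun {a b} (h : R a b) => h.1)
        (InvImage.wf r (wellFounded_lt (α := W)))
  have hr : IsHt R r := by
    intro b α
    constructor
    · intro hα
      refine ⟨e (cut (e.symm b) α hα.le), ?_, hre _⟩
      refine ⟨?_, ?_⟩
      · rw [e.symm_apply_apply]
        exact hα
      · rw [e.symm_apply_apply]
        rfl
    · rintro ⟨a, ha, rfl⟩
      exact ha.1
  have hH := hasHeight_iff hto hr
  have hal : IsAleph1Tree R := by
    refine ⟨isTreeOrder_iff.2 hto, fun b => ⟨r b, (hH b _).2 rfl⟩, fun α => ⟨?_, ?_⟩⟩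
    · exact ⟨e (seg hX0 α), (hH _ _).2 (hre _)⟩
    · refine ((countable_level (S := S) hL α).image e).mono ?_
      intro b hb
      exact ⟨e.symm b, (hH b α).1 hb, e.apply_symm_apply b⟩
  refine ⟨R, ⟨hal, ?_⟩, ?_, ?_, ?_⟩
  · -- many branches
    let br : Fam S → Set W := fun X => {a | (e.symm a).1.2 = X.1 ∩ Iio (e.symm a).1.1}
    have hbr : ∀ X : Fam S, ∀ α, e (seg X.2 α) ∈ br X := by
      intro X α
      show (e.symm (e _)).1.2 = X.1 ∩ Iio (e.symm (e _)).1.1
      rw [e.symm_apply_apply]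
      rfl
    have hmem : ∀ X : Fam S, br X ∈ uncBranches R := by
      intro X
      refine ⟨⟨?_, ?_⟩, ?_⟩
      · intro a ha b hb hne
        have ha' : (e.symm a).1.2 = X.1 ∩ Iio (e.symm a).1.1 := ha
        have hb' : (e.symm b).1.2 = X.1 ∩ Iio (e.symm b).1.1 := hb
        have key : ∀ {a b : W}, (e.symm a).1.2 = X.1 ∩ Iio (e.symm a).1.1 →
            (e.symm b).1.2 = X.1 ∩ Iio (e.symm b).1.1 → (e.symm a).1.1 < (e.symm b).1.1 →
            R a b := by
          intro a b ha hb hlt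
          refine ⟨hlt, ?_⟩
          rw [ha, hb, inter_assoc]
          congr 1
          ext ξ
          simp only [mem_inter_iff, mem_Iio]
          exact ⟨fun h' => h'.2, fun h' => ⟨h'.trans hlt, h'⟩⟩
        rcases lt_trichotomy (e.symm a).1.1 (e.symm b).1.1 with h | h | h
        · exact Or.inl (key ha' hb' h)
        · exfalso
          apply hne
          apply e.symm.injective
          apply Subtype.ext
          exact Prod.ext h (by rw [ha', hb', h])
        · exact Or.inr (key hb' ha' h)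
      · intro t ht hsub
        refine Subset.antisymm hsub fun c hc => ?_
        by_contra hcn
        have hd := hsub (hbr X (r c))
        have hne : c ≠ e (seg X.2 (r c)) := fun h => hcn (h ▸ hbr X (r c))
        rcases ht hc hd hne with h | h
        · have := ht_mono hr h
          rw [hre] at this
          exact lt_irrefl _ this
        · have := ht_mono hr h
          rw [hre] at this
          exact lt_irrefl _ this
      · intro hcount
        apply hL.unc
        have h1 : (univ : Set W) ⊆ r '' br X := fun α _ => ⟨_, hbr X α, hre _⟩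
        exact Set.countable_univ_iff.1 ((hcount.image r).mono h1)
    have hinj : Function.Injective fun X : Fam S => (⟨br X, hmem X⟩ : uncBranches R) := by
      intro X Y hXY
      have h1 : br X = br Y := congrArg Subtype.val hXY
      apply Subtype.ext
      have key : ∀ {X Y : Fam S}, br X = br Y → ∀ ξ, ξ ∈ X.1 → ξ ∈ Y.1 := by
        intro X Y h1 ξ hξ
        obtain ⟨α, hα⟩ := hL.exists_gt ξ
        have h2 := hbr X α
        rw [h1] at h2
        have h3 : (e.symm (e (seg X.2 α))).1.2 = Y.1 ∩ Iio (e.symm (e (seg X.2 α))).1.1 := h2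
        rw [e.symm_apply_apply] at h3
        have h4 : ξ ∈ X.1 ∩ Iio α := ⟨hξ, hα⟩
        have h5 : X.1 ∩ Iio α = Y.1 ∩ Iio α := h3
        rw [h5] at h4
        exact h4.1
      ext ξ
      exact ⟨key h1 ξ, key h1.symm ξ⟩
    have h1 : #(Fam S) ≤ #(uncBranches R) := Cardinal.mk_le_of_injective hinj
    refine le_trans ?_ h1
    have h2 : aleph 1 < #(Fam S) := by
      by_contra hcon
      rw [not_lt, ← hW] at hcon
      obtain ⟨g⟩ := hcon
      have : Nonempty (Fam S) := ⟨⟨X0, hX0⟩⟩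
      obtain ⟨X, hX, h3⟩ := hFE fun y => (Function.invFun g y).1
      apply h3 (g ⟨X, hX⟩)
      rw [Function.leftInverse_invFun g.injective]
    have h3 : (aleph 2 : Cardinal.{0}) = Order.succ (aleph 1) := by
      rw [succ_aleph]
      congr 1
      norm_num
    rw [h3]
    exact Order.succ_le_of_lt h2
  · -- the root
    have hwf : WellFounded ((· < ·) : W → W → Prop) := wellFounded_lt
    have := hL.nonempty
    let w0 : W := hwf.min univ ⟨Classical.arbitrary W, trivial⟩
    have hw0 : ∀ α, ¬ α < w0 := fun α => hwf.not_lt_min univ (mem_univ α)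
    refine ⟨e (seg hX0 w0), fun a ha => ?_⟩
    have h1 : w0 ≠ (e.symm a).1.1 := by
      intro h
      apply ha
      rw [← e.symm_apply_eq]
      apply Subtype.ext
      refine Prod.ext h.symm ?_
      have h2 : (e.symm a).1.2 = ∅ := by
        rw [eq_empty_iff_forall_notMem]
        intro ξ hξ
        have := (e.symm a).2.1 hξ
        rw [← h] at this
        exact hw0 ξ this
      rw [h2]
      symm
      rw [eq_empty_iff_forall_notMem]
      intro ξ hξ
      exact hw0 ξ hξ.2
    have h2 : w0 < (e.symm a).1.1 := lt_of_le_of_ne (not_lt.1 (hw0 _)) h1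
    refine ⟨?_, ?_⟩
    · rw [e.symm_apply_apply]
      exact h2
    · rw [e.symm_apply_apply]
      show (e.symm a).1.2 ∩ Iio w0 = X0 ∩ Iio w0
      have h3 : Iio w0 = (∅ : Set W) := by
        rw [eq_empty_iff_forall_notMem]
        exact fun ξ hξ => hw0 ξ hξ
      rw [h3, inter_empty, inter_empty]
  · -- immediate successors
    intro a
    have hwf : WellFounded ((· < ·) : W → W → Prop) := wellFounded_lt
    set x := e.symm a with hx
    let α' : W := hwf.min {β | x.1.1 < β} (hL.exists_gt _)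
    have hα' : x.1.1 < α' := hwf.min_mem {β | x.1.1 < β} (hL.exists_gt _)
    have hmin : ∀ β, x.1.1 < β → ¬ β < α' := fun β hβ =>
      hwf.not_lt_min {β | x.1.1 < β} hβ
    obtain ⟨hsub, X, hX, hfin⟩ := x.2
    have hnode : ∀ s : Set W, s ⊆ insert x.1.1 x.1.2 → x.1.2 ⊆ s →
        s ⊆ Iio α' ∧ ∃ X ∈ Fam S, (symmDiff s (X ∩ Iio α')).Finite := by
      intro s hs hs'
      refine ⟨?_, X, hX, (hfin.insert x.1.1).subset ?_⟩
      · intro ξ hξ
        rcases hs hξ with h | h
        · rw [h]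
          exact hα'
        · exact lt_trans (hsub h) hα'
      · rintro ξ (⟨h1, h2⟩ | ⟨⟨h1, h2⟩, h3⟩)
        · rcases hs h1 with h | h
          · exact Or.inl h
          · exact Or.inr (Or.inl ⟨h, fun h' => h2 ⟨h'.1, lt_trans h'.2 hα'⟩⟩)
        · by_cases h4 : ξ = x.1.1
          · exact Or.inl h4
          · refine Or.inr (Or.inr ⟨⟨h1, ?_⟩, fun h => h3 (hs' h)⟩)
            rcases lt_trichotomy ξ x.1.1 with h5 | h5 | h5
            · exact h5
            · exact absurd h5 h4
            · exact absurd h2 (hmin ξ h5)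
    have himm : ∀ (s : Set W) (hs : s ⊆ insert x.1.1 x.1.2) (hs' : x.1.2 ⊆ s),
        ImmSucc R a (e ⟨(α', s), hnode s hs hs'⟩) := by
      intro s hs hs'
      refine ⟨⟨?_, ?_⟩, ?_⟩
      · rw [e.symm_apply_apply]
        exact hα'
      · rw [e.symm_apply_apply]
        show s ∩ Iio x.1.1 = x.1.2
        ext ξ
        constructor
        · rintro ⟨h1, h2⟩
          rcases hs h1 with h | h
          · rw [h] at h2
            exact absurd h2 (lt_irrefl _)
          · exact h
        · intro h1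
          exact ⟨hs' h1, hsub h1⟩
      · rintro ⟨c, hc1, hc2⟩
        have h1 := ht_mono hr hc1
        have h2 := ht_mono hr hc2
        rw [hre] at h2
        exact hmin _ h1 h2
    refine ⟨_, _, ?_, himm x.1.2 (subset_insert _ _) (Subset.refl _),
      himm (insert x.1.1 x.1.2) (Subset.refl _) (subset_insert _ _)⟩
    intro h
    have h1 := e.injective h
    have h2 : x.1.2 = insert x.1.1 x.1.2 := congrArg (fun y : Nd S => y.1.2) h1
    have h3 : x.1.1 ∈ x.1.2 := by
      rw [h2]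
      exact mem_insert _ _
    exact lt_irrefl _ (hsub h3)
  · -- extensions at all heights
    intro a α β ha hαβ
    rw [hH] at ha
    have ha' : (e.symm a).1.1 = α := ha
    obtain ⟨hsub, X, hX, hfin⟩ := (e.symm a).2
    have hnode : ((e.symm a).1.2 ∪ (X ∩ Ico α β)) ⊆ Iio β ∧ ∃ Y ∈ Fam S,
        (symmDiff ((e.symm a).1.2 ∪ (X ∩ Ico α β)) (Y ∩ Iio β)).Finite := by
      refine ⟨?_, X, hX, hfin.subset ?_⟩
      · rintro ξ (h | h)
        · have := hsub h
          rw [ha'] at this
          exact lt_trans this hαβ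
        · exact h.2.2
      · rw [ha']
        rintro ξ (⟨h1 | h1, h2⟩ | ⟨⟨h1, h2⟩, h3⟩)
        · refine Or.inl ⟨h1, fun h => h2 ⟨h.1, lt_trans h.2 hαβ⟩⟩
        · exact absurd ⟨h1.1, h1.2.2⟩ h2
        · by_cases h4 : ξ < α
          · exact Or.inr ⟨⟨h1, h4⟩, fun h => h3 (Or.inl h)⟩
          · exact absurd (Or.inr ⟨h1, not_lt.1 h4, h2⟩) h3
    refine ⟨e ⟨(β, (e.symm a).1.2 ∪ (X ∩ Ico α β)), hnode⟩, ⟨?_, ?_⟩, ?_⟩
    · rw [e.symm_apply_apply, ha']
      exact hαβ
    · rw [e.symm_apply_apply, ha']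
      show ((e.symm a).1.2 ∪ (X ∩ Ico α β)) ∩ Iio α = (e.symm a).1.2
      ext ξ
      constructor
      · rintro ⟨h1 | h1, h2⟩
        · exact h1
        · exact absurd h2 (not_lt.2 h1.2.1)
      · intro h1
        have h2 := hsub h1
        rw [ha'] at h2
        exact ⟨Or.inl h1, h2⟩
    · rw [hH]
      exact hre _

end

end Pool.Agent.D0H62.MK
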