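import Pool.Agent.D0H62.MK.Code

/-!
# Valid conditions, amalgamation, and the chain condition relative to the first forcing notion
-/

set_option autoImplicit false

namespace Pool.Agent.D0H62.MK

open Classical

variable {Q X W I : Type}

/-- the finite set attached by a condition to a coordinate -/
noncomputable def fib (p : Cond Q X W I) (c : Code Q X W I) : Finset X :=
  (p.filter fun a => a.1 = c).image Prod.snd

theorem mem_fib {p : Cond Q X W I} {c : Code Q X W I} {x : X} : x ∈ fib p c ↔ (c, x) ∈ p := by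
  simp only [fib, Finset.mem_image, Finset.mem_filter]
  constructor
  · rintro ⟨⟨c', x'⟩, ⟨h1, h2⟩, h3⟩
    simp only at h2 h3
    subst h2 h3
    exact h1
  · intro h
    exact ⟨(c, x), ⟨h, rfl⟩, rfl⟩

theorem fib_congr {p q : Cond Q X W I} {c : Code Q X W I} (h : ∀ x, (c, x) ∈ p ↔ (c, x) ∈ q) :
    fib p c = fib q c := by
  ext x
  rw [mem_fib, mem_fib, h]

/-- restriction of a condition -/
noncomputable def restr (T : Set (Code Q X W I)) (p : Cond Q X W I) : Cond Q X W I :=
  p.filter fun a => a.1 ∈ T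

theorem mem_restr {T : Set (Code Q X W I)} {p : Cond Q X W I} {a : Code Q X W I × X} :
    a ∈ restr T p ↔ a ∈ p ∧ a.1 ∈ T := by simp [restr]

theorem restr_subset (T : Set (Code Q X W I)) (p : Cond Q X W I) : restr T p ⊆ p :=
  Finset.filter_subset _ _

theorem restr_mono {T : Set (Code Q X W I)} {p q : Cond Q X W I} (h : p ⊆ q) :
    restr T p ⊆ restr T q :=
  fun a ha => by
    rw [mem_restr] at ha ⊢
    exact ⟨h ha.1, ha.2⟩

theorem subset_restr {T : Set (Code Q X W I)} {p q : Cond Q X W I} (h : p ⊆ q)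
    (hp : ∀ a ∈ p, a.1 ∈ T) : p ⊆ restr T q := fun a ha => mem_restr.2 ⟨h ha, hp a ha⟩

variable [Preorder Q]

/-- valid conditions: all coordinates are in `S`, and the finite set attached to a coordinate is
in the named family, as witnessed by a weaker condition -/
def Valid (S : Set (Code Q X W I)) (q : Q) (p : Cond Q X W I) : Prop :=
  ∀ a ∈ p, a.1 ∈ S ∧ ∃ s ∈ a.1.nm (fib p a.1), q ≤ s.1 ∧ s.2 ⊆ p

variable {S T : Set (Code Q X W I)} {q q' : Q} {p p' r : Cond Q X W I}

theorem Valid.mono (h : S ⊆ T) (hp : Valid S q p) : Valid T q p :=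
  fun a ha => ⟨h (hp a ha).1, (hp a ha).2⟩

theorem Valid.le (h : q' ≤ q) (hp : Valid S q p) : Valid S q' p := fun a ha => by
  obtain ⟨h1, s, hs, h2, h3⟩ := hp a ha
  exact ⟨h1, s, hs, h.trans h2, h3⟩

theorem valid_empty (S : Set (Code Q X W I)) (q : Q) : Valid S q ∅ := fun a ha => by simp at ha

theorem Valid.of_mem (hp : Valid S q p) (h : ∀ a ∈ p, a.1 ∈ T) : Valid T q p :=
  fun a ha => ⟨h a ha, (hp a ha).2⟩

section

variable [LinearOrder W]

omit [Preorder Q] in
/-- the name of the coordinate refers to earlier stages only -/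
def Proper (c : Code Q X W I) : Prop := ∀ F, ∀ s ∈ c.nm F, ∀ a ∈ s.2, a.1.st < c.st

omit [Preorder Q] in
/-- initial parts of sets of coordinates -/
def Initial (T S : Set (Code Q X W I)) : Prop :=
  T ⊆ S ∧ ∀ c ∈ T, ∀ c' ∈ S, c'.st < c.st → c' ∈ T

theorem valid_restr (hS : ∀ c ∈ S, Proper c) (hT : Initial T S) (hp : Valid S q p) :
    Valid T q (restr T p) := by
  intro a ha
  rw [mem_restr] at ha
  refine ⟨ha.2, ?_⟩
  obtain ⟨h1, s, hs, hqs, hsp⟩ := hp a ha.1
  have h2 : fib (restr T p) a.1 = fib p a.1 := fib_congr fun x => by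
    rw [mem_restr]
    exact ⟨fun h => h.1, fun h => ⟨h, ha.2⟩⟩
  refine ⟨s, by rw [h2]; exact hs, hqs, fun b hb => ?_⟩
  rw [mem_restr]
  exact ⟨hsp hb, hT.2 _ ha.2 _ (hp b (hsp hb)).1 (hS _ h1 _ s hs b hb)⟩

omit [LinearOrder W] in
/-- amalgamation of two conditions over an initial part -/
theorem amalg (hT : T ⊆ S) (hp : Valid S q p) (hp' : Valid S q p') (hr : Valid T q r)
    (h : restr T p ⊆ r) (h' : restr T p' ⊆ r)
    (hd : ∀ a ∈ p, ∀ b ∈ p', a.1 = b.1 → a.1 ∈ T) : Valid S q (r ∪ p ∪ p') := by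
  intro a ha
  by_cases haT : a.1 ∈ T
  · have haq : a ∈ r := by
      rcases Finset.mem_union.1 ha with h1 | h1
      · rcases Finset.mem_union.1 h1 with h2 | h2
        · exact h2
        · exact h (mem_restr.2 ⟨h2, haT⟩)
      · exact h' (mem_restr.2 ⟨h1, haT⟩)
    obtain ⟨h1, s, hs, hqs, hsq⟩ := hr a haq
    refine ⟨hT h1, s, ?_, hqs,
      hsq.trans (Finset.subset_union_left.trans Finset.subset_union_left)⟩
    have h2 : fib (r ∪ p ∪ p') a.1 = fib r a.1 := fib_congr fun x => by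
      rw [Finset.mem_union, Finset.mem_union]
      constructor
      · rintro ((h3 | h3) | h3)
        · exact h3
        · exact h (mem_restr.2 ⟨h3, haT⟩)
        · exact h' (mem_restr.2 ⟨h3, haT⟩)
      · exact fun h3 => Or.inl (Or.inl h3)
    rw [h2]
    exact hs
  · have hnq : ∀ x, (a.1, x) ∉ r := fun x hx => haT (hr _ hx).1
    by_cases hap : ∃ x, (a.1, x) ∈ p
    · have hnp' : ∀ x, (a.1, x) ∉ p' := by
        intro x hx
        obtain ⟨y, hy⟩ := hap
        exact haT (hd (a.1, y) hy _ hx rfl)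
      obtain ⟨y, hy⟩ := hap
      obtain ⟨h1, s, hs, hqs, hsp⟩ := hp _ hy
      refine ⟨h1, s, ?_, hqs,
        hsp.trans (Finset.subset_union_right.trans Finset.subset_union_left)⟩
      have h2 : fib (r ∪ p ∪ p') a.1 = fib p a.1 := fib_congr fun x => by
        rw [Finset.mem_union, Finset.mem_union]
        constructor
        · rintro ((h3 | h3) | h3)
          · exact absurd h3 (hnq x)
          · exact h3
          · exact absurd h3 (hnp' x)
        · exact fun h3 => Or.inl (Or.inr h3)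
      rw [h2]
      exact hs
    · push Not at hap
      have hap' : a ∈ p' := by
        rcases Finset.mem_union.1 ha with h1 | h1
        · rcases Finset.mem_union.1 h1 with h2 | h2
          · exact absurd h2 (hnq a.2)
          · exact absurd h2 (hap a.2)
        · exact h1
      obtain ⟨h1, s, hs, hqs, hsp⟩ := hp' _ hap'
      refine ⟨h1, s, ?_, hqs, hsp.trans Finset.subset_union_right⟩
      have h2 : fib (r ∪ p ∪ p') a.1 = fib p' a.1 := fib_congr fun x => by
        rw [Finset.mem_union, Finset.mem_union]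
        constructor
        · rintro ((h3 | h3) | h3)
          · exact absurd h3 (hnq x)
          · exact absurd h3 (hap x)
          · exact h3
        · exact fun h3 => Or.inr h3
      rw [h2]
      exact hs

omit [LinearOrder W] in
/-- amalgamation of one condition -/
theorem amalg_one (hT : T ⊆ S) (hp : Valid S q p) (hr : Valid T q r) (h : restr T p ⊆ r) :
    Valid S q (r ∪ p) := by
  have := amalg hT hp (valid_empty S q) hr h (by simp [restr]) (by simp)
  simpa using this

end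

/-! ### `σ`-closed preorders -/

omit [Preorder Q] in
/-- every descending sequence of conditions has a lower bound -/
def SC (Q : Type) [Preorder Q] : Prop :=
  ∀ f : ℕ → Q, (∀ n, f (n + 1) ≤ f n) → ∃ q, ∀ n, q ≤ f n

omit [Preorder Q] in
/-- in a `σ`-closed preorder countably many dense open sets have a common element -/
theorem SC.meet {Q : Type} [Preorder Q] (hQ : SC Q) {q₀ : Q} {ι : Type*} [Countable ι]
    (D : ι → Set Q) (hD : ∀ i, ∀ q ∈ D i, ∀ r ≤ q, r ∈ D i)
    (hd : ∀ i, ∀ q ≤ q₀, ∃ r ≤ q, r ∈ D i) : ∃ q ≤ q₀, ∀ i, q ∈ D i := by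
  rcases isEmpty_or_nonempty ι with hι | hι
  · exact ⟨q₀, le_rfl, fun i => hι.elim i⟩
  · obtain ⟨e, he⟩ := exists_surjective_nat ι
    choose! g hg1 hg2 using hd
    let f : ℕ → {q : Q // q ≤ q₀} := fun n => Nat.rec ⟨q₀, le_rfl⟩
      (fun k q => ⟨g (e k) q.1, (hg1 _ _ q.2).trans q.2⟩) n
    have hf : ∀ n, (f (n + 1)).1 = g (e n) (f n).1 := fun n => rfl
    obtain ⟨q, hq⟩ := hQ (fun n => (f n).1) fun n => by
      rw [hf]
      exact hg1 _ _ (f n).2
    refine ⟨q, hq 0, fun i => ?_⟩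
    obtain ⟨n, rfl⟩ := he i
    have h1 := hq (n + 1)
    rw [hf] at h1
    exact hD _ _ (hg2 _ _ (f n).2) _ h1

/-! ### The chain condition -/

/-- the countable chain condition, in the extension by `Q`, of the preorder of the finite parts of
the valid conditions: every subset contains a countable predense subset -/
def RP (S : Set (Code Q X W I)) : Prop :=
  ∀ φ : Q → Set (Cond Q X W I), (∀ q r, r ≤ q → φ q ⊆ φ r) → (∀ q, ∀ p ∈ φ q, Valid S q p) →
    ∀ q₀, ∃ q ≤ q₀, ∃ C : Set (Cond Q X W I), C.Countable ∧ C ⊆ φ q ∧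
      ∀ r ≤ q, ∀ p ∈ φ r, ∃ s ∈ C, ∃ r' ≤ r, ∃ t, Valid S r' t ∧ p ⊆ t ∧ s ⊆ t

theorem RP_empty : RP (∅ : Set (Code Q X W I)) := by
  intro φ hφ hv q₀
  have he : ∀ q, ∀ p ∈ φ q, p = ∅ := by
    intro q p hp
    rw [Finset.eq_empty_iff_forall_notMem]
    intro a ha
    exact (hv q p hp a ha).1
  by_cases h : ∃ q ≤ q₀, ∅ ∈ φ q
  · obtain ⟨q, hq, h⟩ := h
    refine ⟨q, hq, {∅}, Set.countable_singleton _, by simpa using h, fun r hr p hp => ?_⟩
    exact ⟨∅, rfl, r, le_rfl, ∅, valid_empty _ _, (he r p hp).le, le_rfl⟩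
  · push Not at h
    refine ⟨q₀, le_rfl, ∅, Set.countable_empty, Set.empty_subset _, fun r hr p hp => ?_⟩
    have := he r p hp
    subst this
    exact absurd hp (h r hr)

variable [LinearOrder W]

/-- the chain condition is inherited from the parts -/
theorem RP_of_parts (hQ : SC Q) {S : Set (Code Q X W I)} (hS : ∀ c ∈ S, Proper c)
    (hT : ∀ r : Finset (Code Q X W I), (∀ c ∈ r, c ∈ S) →
      ∃ T, Initial T S ∧ (∀ c ∈ r, c ∈ T) ∧ RP T) : RP S := by
  intro φ hφ hv q₀
  choose! T hTS hrT hRP using hT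
  -- `C` covers the restrictions to `T r`
  let Cov : Finset (Code Q X W I) → Q → Set (Cond Q X W I) → Prop := fun r q C =>
    C.Countable ∧ C ⊆ φ q ∧ ∀ q' ≤ q, ∀ p ∈ φ q', ∃ s ∈ C, ∃ q'' ≤ q', ∃ t, Valid (T r) q'' t ∧
      restr (T r) p ⊆ t ∧ restr (T r) s ⊆ t
  have hCov_le : ∀ r q q' C, q' ≤ q → Cov r q C → Cov r q' C := by
    rintro r q q' C hq ⟨h1, h2, h3⟩
    exact ⟨h1, h2.trans (hφ _ _ hq), fun q'' hq'' => h3 q'' (hq''.trans hq)⟩
  have claim1 : ∀ r : Finset (Code Q X W I), (∀ c ∈ r, c ∈ S) → ∀ q, ∃ q' ≤ q, ∃ C,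
      Cov r q' C := by
    intro r hr q
    obtain ⟨q', hq', C, hC1, hC2, hC3⟩ := hRP r hr
      (fun q => {s | Valid (T r) q s ∧ ∃ p ∈ φ q, restr (T r) p ⊆ s})
      (by
        rintro q1 q2 h12 s ⟨h1, p, hp, h2⟩
        exact ⟨h1.le h12, p, hφ _ _ h12 hp, h2⟩)
      (fun q s hs => hs.1) q
    have hC2' : ∀ s ∈ C, ∃ p ∈ φ q', restr (T r) p ⊆ s := fun s hs => (hC2 hs).2
    choose! g hg1 hg2 using hC2'
    refine ⟨q', hq', g '' C, hC1.image g, ?_, fun q'' hq'' p hp => ?_⟩
    · rintro _ ⟨s, hs, rfl⟩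
      exact hg1 s hs
    · obtain ⟨s, hs, q3, hq3, t, ht, h1, h2⟩ := hC3 q'' hq'' (restr (T r) p)
        ⟨valid_restr hS (hTS r hr) (hv _ _ hp), p, hp, Finset.Subset.refl _⟩
      exact ⟨g s, ⟨s, hs, rfl⟩, q3, hq3, t, ht, h1, (hg2 s hs).trans h2⟩
  have claim2 : ∀ A : Set (Code Q X W I), A.Countable → A ⊆ S → ∀ q, ∃ q' ≤ q,
      ∃ A' : Set (Code Q X W I), A'.Countable ∧ A' ⊆ S ∧ A ⊆ A' ∧
      ∃ C : Finset (Code Q X W I) → Set (Cond Q X W I), ∀ r : Finset (Code Q X W I), (∀ c ∈ r, c ∈ A) →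
        Cov r q' (C r) ∧ ∀ s ∈ C r, ∀ a ∈ s, a.1 ∈ A' := by
    intro A hA hAS q
    have hcount : Countable {r : Finset (Code Q X W I) // ∀ c ∈ r, c ∈ A} := by
      have h1 : {r : Finset (Code Q X W I) | (r : Set (Code Q X W I)) ⊆ A}.Countable := by
        have := hA.to_subtype
        refine (Set.countable_range fun r : Finset A => r.map (Function.Embedding.subtype _)).mono
          ?_
        intro r hr
        refine ⟨r.subtype (· ∈ A), ?_⟩
        exact Finset.subtype_map_of_mem fun x hx => hr hx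
      exact h1.to_subtype
    obtain ⟨q', hq', hmeet⟩ := hQ.meet (q₀ := q)
      (fun r : {r : Finset (Code Q X W I) // ∀ c ∈ r, c ∈ A} => {q' | ∃ C, Cov r.1 q' C})
      (by
        rintro r q1 ⟨C, hC⟩ q2 h12
        exact ⟨C, hCov_le _ _ _ _ h12 hC⟩)
      (fun r q1 _ => by
        obtain ⟨q2, h12, C, hC⟩ := claim1 r.1 (fun c hc => hAS (r.2 c hc)) q1
        exact ⟨q2, h12, C, hC⟩)
    choose C hC using hmeet
    refine ⟨q', hq', A ∪ ⋃ r : {r : Finset (Code Q X W I) // ∀ c ∈ r, c ∈ A}, ⋃ s ∈ C r,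
      {c | ∃ a ∈ s, a.1 = c}, ?_, ?_, Set.subset_union_left,
      fun r => if h : ∀ c ∈ r, c ∈ A then C ⟨r, h⟩ else ∅, ?_⟩
    · refine hA.union (Set.countable_iUnion fun r => (hC r).1.biUnion fun s _ => ?_)
      refine ((s.image Prod.fst).countable_toSet).mono ?_
      rintro c ⟨a, ha, rfl⟩
      exact Finset.mem_coe.2 (Finset.mem_image_of_mem _ ha)
    · refine Set.union_subset hAS (Set.iUnion_subset fun r => Set.iUnion₂_subset fun s hs => ?_)
      rintro c ⟨a, ha, rfl⟩
      exact (hv _ _ ((hC r).2.1 hs) a ha).1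
    · intro r hr
      simp only [dif_pos hr]
      refine ⟨hC ⟨r, hr⟩, fun s hs a ha => Or.inr ?_⟩
      exact Set.mem_iUnion.2 ⟨⟨r, hr⟩, Set.mem_iUnion₂.2 ⟨s, hs, a, ha, rfl⟩⟩
  choose! n1 hn1 n2 hn2 hn3 hn4 C hC using claim2
  -- the closure
  let G : ℕ → {A : Set (Code Q X W I) // A.Countable ∧ A ⊆ S} × Q := fun n =>
    Nat.rec (⟨∅, Set.countable_empty, Set.empty_subset _⟩, q₀)
      (fun _ x => (⟨n2 x.1.1 x.2, hn2 _ x.1.2.1 x.1.2.2 _, hn3 _ x.1.2.1 x.1.2.2 _⟩,
        n1 x.1.1 x.2)) n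
  have hG1 : ∀ n, (G (n + 1)).1.1 = n2 (G n).1.1 (G n).2 := fun n => rfl
  have hG2 : ∀ n, (G (n + 1)).2 = n1 (G n).1.1 (G n).2 := fun n => rfl
  obtain ⟨q, hq⟩ := hQ (fun n => (G n).2) fun n => by
    rw [hG2]
    exact hn1 _ (G n).1.2.1 (G n).1.2.2 _
  have hmono : Monotone fun n => (G n).1.1 := monotone_nat_of_le_succ fun n => by
    rw [hG1]
    exact hn4 _ (G n).1.2.1 (G n).1.2.2 _
  have hcov : ∀ n, ∀ r : Finset (Code Q X W I), (∀ c ∈ r, c ∈ (G n).1.1) →
      Cov r (G (n + 1)).2 (C (G n).1.1 (G n).2 r) ∧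
        ∀ s ∈ C (G n).1.1 (G n).2 r, ∀ a ∈ s, a.1 ∈ (G (n + 1)).1.1 := by
    intro n r hr
    rw [hG1, hG2]
    exact hC _ (G n).1.2.1 (G n).1.2.2 _ r hr
  refine ⟨q, hq 0, ⋃ n, ⋃ r : {r : Finset (Code Q X W I) // ∀ c ∈ r, c ∈ (G n).1.1},
    C (G n).1.1 (G n).2 r.1, ?_, ?_, ?_⟩
  · refine Set.countable_iUnion fun n => ?_
    have hcount : Countable {r : Finset (Code Q X W I) // ∀ c ∈ r, c ∈ (G n).1.1} := by
      have h1 : {r : Finset (Code Q X W I) | (r : Set (Code Q X W I)) ⊆ (G n).1.1}.Countable := by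
        have := (G n).1.2.1.to_subtype
        refine (Set.countable_range fun r : Finset (G n).1.1 =>
          r.map (Function.Embedding.subtype _)).mono ?_
        intro r hr
        refine ⟨r.subtype (· ∈ (G n).1.1), ?_⟩
        exact Finset.subtype_map_of_mem fun x hx => hr hx
      exact h1.to_subtype
    exact Set.countable_iUnion fun r => (hcov n r.1 r.2).1.1
  · refine Set.iUnion_subset fun n => Set.iUnion_subset fun r => ?_
    exact (hcov n r.1 r.2).1.2.1.trans (hφ _ _ (hq (n + 1)))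
  · intro q' hq' p hp
    let r : Finset (Code Q X W I) := (p.image Prod.fst).filter fun c => ∃ n, c ∈ (G n).1.1
    have hr : ∃ n, ∀ c ∈ r, c ∈ (G n).1.1 := by
      have : ∀ u : Finset (Code Q X W I), (∀ c ∈ u, ∃ n, c ∈ (G n).1.1) →
          ∃ n, ∀ c ∈ u, c ∈ (G n).1.1 := by
        intro u
        induction u using Finset.induction_on with
        | empty => exact fun _ => ⟨0, by simp⟩
        | insert c u _ ih =>
          intro hu
          obtain ⟨n, hn⟩ := ih fun d hd => hu d (Finset.mem_insert_of_mem hd)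
          obtain ⟨m, hm⟩ := hu c (Finset.mem_insert_self _ _)
          refine ⟨max n m, fun d hd => ?_⟩
          rcases Finset.mem_insert.1 hd with rfl | hd
          · exact hmono (le_max_right n m) hm
          · exact hmono (le_max_left n m) (hn d hd)
      exact this r fun c hc => (Finset.mem_filter.1 hc).2
    obtain ⟨n, hn⟩ := hr
    obtain ⟨⟨_, hc2, hc3⟩, hc4⟩ := hcov n r hn
    obtain ⟨s, hs, q'', hq'', t, ht, h1, h2⟩ := hc3 q' (hq'.trans (hq (n + 1))) p hp
    have hrS : ∀ c ∈ r, c ∈ S := fun c hc => (G n).1.2.2 (hn c hc)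
    refine ⟨s, Set.mem_iUnion.2 ⟨n, Set.mem_iUnion.2 ⟨⟨r, hn⟩, hs⟩⟩, q'', hq'', t ∪ p ∪ s, ?_,
      Finset.subset_union_right.trans Finset.subset_union_left, Finset.subset_union_right⟩
    refine amalg (hTS r hrS).1 ((hv _ _ hp).le hq'')
      ((hv _ _ (hφ _ _ (hq''.trans (hq'.trans (hq (n + 1)))) (hc2 hs)))) ht h1 h2 ?_
    intro a ha b hb hab
    apply hrT r hrS
    refine Finset.mem_filter.2 ⟨Finset.mem_image_of_mem _ ha, n + 1, ?_⟩
    rw [hab]
    exact hc4 s hs b hb

/-! ### Maximal extensions at one stage -/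

/-- the candidates for the set of the coordinates at stage `α` -/
def Cand (α : W) (S₀ : Set (Code Q X W I)) : Set (Set (Code Q X W I)) :=
  {M | (∀ c ∈ M, c.st = α ∧ Proper c) ∧ RP (S₀ ∪ M)}

theorem exists_max (hQ : SC Q) (α : W) (S₀ : Set (Code Q X W I))
    (h₀ : ∀ c ∈ S₀, c.st < α ∧ Proper c) (hc : RP S₀) :
    ∃ M, Maximal (fun M => M ∈ Cand α S₀) M := by
  apply zorn_subset
  intro 𝒞 h𝒞 hchain
  rcases 𝒞.eq_empty_or_nonempty with he | hne
  · subst he
    refine ⟨∅, ⟨by simp, by simpa using hc⟩, by simp⟩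
  · refine ⟨⋃₀ 𝒞, ⟨?_, ?_⟩, fun s hs => Set.subset_sUnion_of_mem hs⟩
    · rintro c ⟨M, hM, hcM⟩
      exact (h𝒞 hM).1 c hcM
    · apply RP_of_parts hQ
      · rintro c (h | ⟨M, hM, hcM⟩)
        · exact (h₀ c h).2
        · exact ((h𝒞 hM).1 c hcM).2
      · intro r hr
        have : ∃ M ∈ 𝒞, ∀ c ∈ r, c ∈ S₀ ∪ M := by
          induction r using Finset.induction_on with
          | empty =>
            obtain ⟨M, hM⟩ := hne
            exact ⟨M, hM, by simp⟩
          | insert c r _ ih =>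
            obtain ⟨M, hM, h1⟩ := ih fun d hd => hr d (Finset.mem_insert_of_mem hd)
            rcases hr c (Finset.mem_insert_self _ _) with h2 | ⟨M', hM', h2⟩
            · refine ⟨M, hM, fun d hd => ?_⟩
              rcases Finset.mem_insert.1 hd with h3 | h3
              · rw [h3]
                exact Or.inl h2
              · exact h1 d h3
            · rcases hchain.total hM hM' with h4 | h4
              · refine ⟨M', hM', fun d hd => ?_⟩
                rcases Finset.mem_insert.1 hd with h3 | h3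
                · rw [h3]
                  exact Or.inr h2
                · exact (h1 d h3).imp id fun h => h4 h
              · refine ⟨M, hM, fun d hd => ?_⟩
                rcases Finset.mem_insert.1 hd with h3 | h3
                · rw [h3]
                  exact Or.inr (h4 h2)
                · exact h1 d h3
        obtain ⟨M, hM, h1⟩ := this
        refine ⟨S₀ ∪ M, ⟨Set.union_subset_union_right _ (Set.subset_sUnion_of_mem hM), ?_⟩,
          h1, (h𝒞 hM).2⟩
        rintro c hcS c' (h2 | ⟨M', hM', h2⟩) hlt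
        · exact Or.inl h2
        · exfalso
          have h3 : c'.st = α := ((h𝒞 hM').1 c' h2).1
          have h4 : c.st ≤ α := by
            rcases hcS with h | h
            · exact (h₀ c h).1.le
            · exact ((h𝒞 hM).1 c h).1.le
          rw [h3] at hlt
          exact absurd h4 (not_le.2 hlt)

end Pool.Agent.D0H62.MK
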